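import Mathlib
import Pool.Agent.ZF.OmRec
import Pool.Agent.ZF.Tower

/-!
# Definitions for the comparison of finitary partitions and 3-cycles
-/

universe u

namespace Pool.Agent.Lib.MP_1929a6_lc

open Pool.Agent.ZF

variable {M : Type u} [Model M]

/-- the families of pairwise disjoint finite subsets of `A` with at least two elements -/
noncomputable def Fam (A : M) : M := sep (pow (pow A)) (fun F =>
  (∀ x, x ∈ F → KFin x ∧ ∃ u v, u ∈ x ∧ v ∈ x ∧ u ≠ v) ∧
  ∀ x, x ∈ F → ∀ y, y ∈ F → x ≠ y → Disj x y)

instance : Ft₁ (Fam : M → M) := by unfold Fam; infer_instance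

/-- `t` is a subset of `A` with exactly three elements -/
def Three (A t : M) : Prop :=
  ∃ a b c, a ∈ A ∧ b ∈ A ∧ c ∈ A ∧ a ≠ b ∧ b ≠ c ∧ a ≠ c ∧ t = {a, b, c}

instance : Fo₂ (Three : M → M → Prop) := by unfold Three; infer_instance

/-- `τ` maps the families to three-element subsets of `A`, at most two-to-one -/
structure Hyp (A : M) (τ : M → M) : Prop where
  inf : ¬ KFin A
  three : ∀ F, F ∈ Fam A → Three A (τ F)
  two : ∀ F, F ∈ Fam A → ∀ G, G ∈ Fam A → ∀ H, H ∈ Fam A → τ F = τ G → τ G = τ H →
    F = G ∨ G = H ∨ F = H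

/-- `D` is a sequence of disjoint nonempty finite subsets of `A` -/
structure SeqD (A D : M) : Prop where
  fn : IsFn D
  dom_eq : dom D = om
  fin : ∀ n, n ∈ (om : M) → KFin (app D n)
  sub : ∀ n, n ∈ (om : M) → app D n ⊆ A
  ne : ∀ n, n ∈ (om : M) → ∃ z, z ∈ app D n
  disj : ∀ m, m ∈ (om : M) → ∀ n, n ∈ (om : M) → m ≠ n → Disj (app D m) (app D n)

/-! ### Good systems -/

/-- the index set of a system `S = (s, j)` -/
noncomputable def II (S : M) : M := dom (fst S)

/-- the set of predecessors of `x` in the system `S = (s, j)` -/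
noncomputable def pd (S x : M) : M := app (fst S) x

/-- the pairing function of the system `S = (s, j)` -/
noncomputable def jj (S x y : M) : M := app (snd S) (pr x y)

instance : Ft₁ (II : M → M) := by unfold II; infer_instance
instance : Ft₂ (pd : M → M → M) := by unfold pd; infer_instance
instance : Ft₃ (jj : M → M → M → M) := by unfold jj; infer_instance

/-- good systems: a well-ordered disjoint family `I` of nonempty finite subsets of `A` that contains
all `D n`, together with an injection `I × I → I` -/
structure Good (A D S : M) : Prop where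
  pair : S = pr (fst S) (snd S)
  wo : WO (fst S)
  fin : ∀ x, x ∈ II S → KFin x
  sub : ∀ x, x ∈ II S → x ⊆ A
  ne : ∀ x, x ∈ II S → ∃ z, z ∈ x
  disj : ∀ x, x ∈ II S → ∀ y, y ∈ II S → x ≠ y → Disj x y
  base : ∀ n, n ∈ (om : M) → app D n ∈ II S
  jfn : IsFn (snd S)
  jdom : dom (snd S) = prod (II S) (II S)
  jmem : ∀ x, x ∈ II S → ∀ y, y ∈ II S → jj S x y ∈ II S
  jinj : ∀ x, x ∈ II S → ∀ y, y ∈ II S → ∀ x', x' ∈ II S → ∀ y', y' ∈ II S →
    jj S x y = jj S x' y' → x = x' ∧ y = y'

theorem good_iff {A D S : M} : Good A D S ↔ S = pr (fst S) (snd S) ∧ WO (fst S) ∧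
    (∀ x, x ∈ II S → KFin x) ∧ (∀ x, x ∈ II S → x ⊆ A) ∧ (∀ x, x ∈ II S → ∃ z, z ∈ x) ∧
    (∀ x, x ∈ II S → ∀ y, y ∈ II S → x ≠ y → Disj x y) ∧
    (∀ n, n ∈ (om : M) → app D n ∈ II S) ∧ IsFn (snd S) ∧ dom (snd S) = prod (II S) (II S) ∧
    (∀ x, x ∈ II S → ∀ y, y ∈ II S → jj S x y ∈ II S) ∧
    (∀ x, x ∈ II S → ∀ y, y ∈ II S → ∀ x', x' ∈ II S → ∀ y', y' ∈ II S →
      jj S x y = jj S x' y' → x = x' ∧ y = y') :=
  ⟨fun h => ⟨h.1, h.2, h.3, h.4, h.5, h.6, h.7, h.8, h.9, h.10, h.11⟩,
   fun ⟨h1, h2, h3, h4, h5, h6, h7, h8, h9, h10, h11⟩ =>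
    ⟨h1, h2, h3, h4, h5, h6, h7, h8, h9, h10, h11⟩⟩

set_option synthInstance.maxSize 4096 in
instance : Fo₃ (Good : M → M → M → Prop) := by
  have : (Good : M → M → M → Prop) = fun A D S => _ :=
    funext fun A => funext fun D => funext fun S => propext good_iff
  rw [this]
  infer_instance

/-- extension of systems -/
def leS (S T : M) : Prop := fst S ⊆ fst T ∧ snd S ⊆ snd T

instance : Fo₂ (leS : M → M → Prop) := by unfold leS; infer_instance

/-- union of a set of systems -/
noncomputable def supS (C : M) : M := pr (sUn (img fst C)) (sUn (img snd C))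

instance : Ft₁ (supS : M → M) := by unfold supS; infer_instance

/-! ### The diagonal construction -/

/-- the index `D 0` -/
noncomputable def i0 (D : M) : M := app D ∅
/-- the index `D 1` -/
noncomputable def i1 (D : M) : M := app D (succ ∅)
/-- the index `D 2` -/
noncomputable def i2 (D : M) : M := app D (succ (succ ∅))

instance : Ft₁ (i0 : M → M) := by unfold i0; infer_instance
instance : Ft₁ (i1 : M → M) := by unfold i1; infer_instance
instance : Ft₁ (i2 : M → M) := by unfold i2; infer_instance

/-- the block attached to the index `x`: union of two different members of the family -/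
noncomputable def EE (D S x : M) : M := jj S x (i0 D) ∪ jj S x (i1 D)

instance : Ft₃ (EE : M → M → M → M) := by unfold EE; infer_instance

/-- the family of blocks attached to a set `Y` of indices -/
noncomputable def FF (D S Y : M) : M := img (fun x => EE D S x) Y

instance : Ft₃ (FF : M → M → M → M) := by unfold FF; infer_instance

/-- slot number `m` of the triple `t = (a, (b, c))` of indices -/
noncomputable def hh (D S t m : M) : M :=
  jj S (fst t) (jj S (fst (snd t)) (jj S (snd (snd t)) (app D m)))

instance : Ft₄ (hh : M → M → M → M → M) := by unfold hh; infer_instance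

/-- the set of all triples `(a, (b, c))` of indices -/
noncomputable def Tr (S : M) : M := prod (II S) (prod (II S) (II S))

instance : Ft₁ (Tr : M → M) := by unfold Tr; infer_instance

section

variable (τ : M → M) [Ft₁ τ]

/-- the sets `Y` of indices whose value is contained in `W` -/
noncomputable def XX (D S W : M) : M := sep (pow (II S)) (fun Y => τ (FF D S Y) ⊆ W)

instance : Ft₃ (XX τ : M → M → M → M) := by unfold XX; infer_instance

/-- the union of the three old sets that the triple `t` names -/
noncomputable def WW (O t : M) : M :=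
  app O (fst t) ∪ (app O (fst (snd t)) ∪ app O (snd (snd t)))

instance : Ft₂ (WW : M → M → M) := by unfold WW; infer_instance

/-- the trace of `Y` on the slots of `t` -/
noncomputable def tr (D S t Y : M) : M := sep om (fun m => hh D S t m ∈ Y)

instance : Ft₄ (tr : M → M → M → M → M) := by unfold tr; infer_instance

/-- the least natural number that is not a trace of a member of `XX` -/
noncomputable def ZZ (D S O t : M) : M :=
  least (sep om (fun n => ∀ Y, Y ∈ XX τ D S (WW O t) → tr D S t Y ≠ n))

instance : Ft₄ (ZZ τ : M → M → M → M → M) := by unfold ZZ; infer_instance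

/-- the diagonal set of indices -/
noncomputable def YY (D S O : M) : M :=
  sep (II S) (fun x => ∃ t, t ∈ Tr S ∧ ∃ m, m ∈ ZZ τ D S O t ∧ x = hh D S t m)

instance : Ft₃ (YY τ : M → M → M → M) := by unfold YY; infer_instance

/-- the new set found from the old sets `O a`, `a ∈ II S` -/
noncomputable def NN (D S O : M) : M := τ (FF D S (YY τ D S O)) \ sUn (ran O)

instance : Ft₃ (NN τ : M → M → M → M) := by unfold NN; infer_instance

/-- enumeration of the members of `II S` and of the values of `f` by `II S` -/
noncomputable def Old (D S f : M) : M :=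
  gr (fun a => sUn (sep (II S) (fun k => a = jj S (i0 D) k)) ∪
    sUn (img (fun k => app f k) (sep (dom f) (fun k => a = jj S (i1 D) k)))) (II S)

instance : Ft₃ (Old : M → M → M → M) := by unfold Old; infer_instance

/-- the sequence of new sets, defined by recursion along the well-ordering of `II S` -/
noncomputable def Nf (D S : M) : M :=
  iota (fun N => IsRec (fst S) (fun _ f => NN τ D S (Old D S f)) N)

instance : Ft₂ (Nf τ : M → M → M) := by unfold Nf IsRec; infer_instance

/-- the well-ordering of the extended system -/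
noncomputable def sP (D S : M) : M :=
  fst S ∪ img (fun i => pr (app (Nf τ D S) i) (II S ∪ img (fun k => app (Nf τ D S) k) (pd S i)))
    (II S)

instance : Ft₂ (sP τ : M → M → M) := by unfold sP; infer_instance

/-- the pairing function of the extended system -/
noncomputable def jP (D S : M) : M :=
  snd S ∪ (img (fun p => pr (pr (app (Nf τ D S) (fst p)) (snd p))
      (app (Nf τ D S) (jj S (i0 D) (jj S (fst p) (snd p))))) (prod (II S) (II S)) ∪
    (img (fun p => pr (pr (fst p) (app (Nf τ D S) (snd p)))
      (app (Nf τ D S) (jj S (i1 D) (jj S (fst p) (snd p))))) (prod (II S) (II S)) ∪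
    img (fun p => pr (pr (app (Nf τ D S) (fst p)) (app (Nf τ D S) (snd p)))
      (app (Nf τ D S) (jj S (i2 D) (jj S (fst p) (snd p))))) (prod (II S) (II S))))

set_option synthInstance.maxSize 4096 in
instance : Ft₂ (jP τ : M → M → M) := by unfold jP; infer_instance

/-- the extended system -/
noncomputable def extS (D S : M) : M := pr (sP τ D S) (jP τ D S)

instance : Ft₂ (extS τ : M → M → M) := by unfold extS; infer_instance

end

end Pool.Agent.Lib.MP_1929a6_lc
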