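import Mathlib
import Pool.Agent.Lib.MP_1929a6_lc.Setup

/-!
# The counting lemma
-/

universe u

namespace Pool.Agent.Lib.MP_1929a6_lc

open Pool.Agent.ZF

variable {M : Type u} [Model M]

theorem mem_Fam {A F : M} : F ∈ Fam A ↔ F ⊆ pow A ∧
    (∀ x, x ∈ F → KFin x ∧ ∃ u v, u ∈ x ∧ v ∈ x ∧ u ≠ v) ∧
    ∀ x, x ∈ F → ∀ y, y ∈ F → x ≠ y → Disj x y := by
  unfold Fam
  rw [mem_sep, mem_pow]

open Classical in
/-- at most three indices go into a three-element set -/
theorem Three.card_le {A T : M} (hT : Three A T) (w : Fin 7 → M) (hw : Function.Injective w) :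
    (Finset.univ.filter (fun i => w i ∈ T)).card ≤ 3 := by
  obtain ⟨a, b, c, _, _, _, _, _, _, rfl⟩ := hT
  have h1 : (Finset.univ.filter (fun i => w i ∈ ({a, b, c} : M))).card ≤
      ([a, b, c].toFinset).card := by
    apply Finset.card_le_card_of_injOn w
    · intro i hi
      have h2 : w i ∈ ({a, b, c} : M) := (Finset.mem_filter.1 hi).2
      simp only [mem_ins, mem_sing] at h2
      rw [Finset.mem_coe, List.mem_toFinset]
      simp only [List.mem_cons, List.not_mem_nil, or_false]
      exact h2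
    · intro i _ j _ h
      exact hw h
  exact h1.trans ((List.toFinset_card_le _).trans (by simp))

/-- **Counting**: a finite set `W` with at least seven elements supports a family `F` whose
value is not contained in `W`.  (Seven elements are given by an external injection `Fin 7 → M`.)

Proof: otherwise choose (finite choice) for each value `T` a family `g T` with `τ (g T) = T`, and
let `ψ F = {T}` if `F = g T` and `ψ F = {T, W \ T}` otherwise, where `T = τ F`.  Then `ψ` is an
injection of the finite set `Fam W` into itself that misses `∅`. -/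
theorem count {A : M} {τ : M → M} [Ft₁ τ] (h : Hyp A τ) {W : M} (hW : KFin W) (hWA : W ⊆ A)
    (w : Fin 7 → M) (hw : Function.Injective w) (hwW : ∀ i, w i ∈ W) :
    ∃ F, F ∈ Fam W ∧ ¬ τ F ⊆ W := by
  classical
  by_contra hcon
  push Not at hcon
  have hFam : ∀ F, F ∈ Fam W → F ∈ Fam A := by
    intro F hF
    obtain ⟨h1, h2, h3⟩ := mem_Fam.1 hF
    exact mem_Fam.2 ⟨fun x hx => mem_pow.2 (fun z hz => hWA z (mem_pow.1 (h1 x hx) z hz)), h2, h3⟩
  have hfin : KFin (Fam W) := by
    refine (hW.pow.pow).subset ?_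
    intro F hF
    exact mem_pow.2 (mem_Fam.1 hF).1
  -- facts on the values
  have hthree : ∀ F, F ∈ Fam W → Three A (τ F) := fun F hF => h.three F (hFam F hF)
  have hne : ∀ F, F ∈ Fam W → ∃ z, z ∈ τ F := by
    intro F hF
    obtain ⟨a, b, c, _, _, _, _, _, _, h1⟩ := hthree F hF
    exact ⟨a, by rw [h1]; simp⟩
  have hT2 : ∀ F, F ∈ Fam W → ∃ u v, u ∈ τ F ∧ v ∈ τ F ∧ u ≠ v := by
    intro F hF
    obtain ⟨a, b, c, _, _, _, hab, _, _, h1⟩ := hthree F hF
    exact ⟨a, b, by rw [h1]; simp, by rw [h1]; simp, hab⟩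
  have hC2 : ∀ F, F ∈ Fam W → ∃ u v, u ∈ W \ τ F ∧ v ∈ W \ τ F ∧ u ≠ v := by
    intro F hF
    have h1 := (hthree F hF).card_le w hw
    have h2 := Finset.card_filter_add_card_filter_not (s := (Finset.univ : Finset (Fin 7)))
      (fun i => w i ∈ τ F)
    rw [Finset.card_univ, Fintype.card_fin] at h2
    have h3 : 1 < (Finset.univ.filter (fun i => ¬ w i ∈ τ F)).card := by omega
    obtain ⟨i, hi, j, hj, hij⟩ := Finset.one_lt_card.1 h3
    exact ⟨w i, w j, mem_dif.2 ⟨hwW i, (Finset.mem_filter.1 hi).2⟩,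
      mem_dif.2 ⟨hwW j, (Finset.mem_filter.1 hj).2⟩, fun h4 => hij (hw h4)⟩
  have hcov : ∀ F, F ∈ Fam W → ∀ G, G ∈ Fam W → τ F ≠ W \ τ G := by
    intro F hF G hG heq
    have h1 := (hthree F hF).card_le w hw
    have h2 := (hthree G hG).card_le w hw
    have h3 : (Finset.univ : Finset (Fin 7)) ⊆
        Finset.univ.filter (fun i => w i ∈ τ F) ∪ Finset.univ.filter (fun i => w i ∈ τ G) := by
      intro i _
      rw [Finset.mem_union, Finset.mem_filter, Finset.mem_filter]
      by_cases h4 : w i ∈ τ G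
      · exact Or.inr ⟨Finset.mem_univ _, h4⟩
      · left
        refine ⟨Finset.mem_univ _, ?_⟩
        rw [heq]
        exact mem_dif.2 ⟨hwW i, h4⟩
    have h4 := (Finset.card_le_card h3).trans (Finset.card_union_le _ _)
    rw [Finset.card_univ, Fintype.card_fin] at h4
    omega
  -- finite choice of preimages
  obtain ⟨g, hg, hgd, hgR⟩ := KFin.choice (fun u v => v ∈ Fam W ∧ τ v = u)
    (x := img τ (Fam W)) (hfin.img τ) (by
      intro u hu
      obtain ⟨F, hF, rfl⟩ := mem_img.1 hu
      exact ⟨F, hF, rfl⟩)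
  have hgR' : ∀ F, F ∈ Fam W → app g (τ F) ∈ Fam W ∧ τ (app g (τ F)) = τ F :=
    fun F hF => hgR (τ F) (mem_img.2 ⟨F, hF, rfl⟩)
  let ψ : M → M := fun F => if F = app g (τ F) then {τ F} else {τ F, W \ τ F}
  have hψ1 : ∀ F, F = app g (τ F) → ψ F = {τ F} := fun F hF => if_pos hF
  have hψ2 : ∀ F, F ≠ app g (τ F) → ψ F = {τ F, W \ τ F} := fun F hF => if_neg hF
  have hψi : Ft₁ ψ := by
    show Ft₁ (fun F => if F = app g (τ F) then {τ F} else {τ F, W \ τ F})
    infer_instance
  have hmem : ∀ F, F ∈ Fam W → τ F ∈ ψ F := by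
    intro F _
    by_cases h1 : F = app g (τ F)
    · rw [hψ1 F h1]; simp
    · rw [hψ2 F h1]; simp
  have hmaps : ∀ F, F ∈ Fam W → ψ F ∈ Fam W := by
    intro F hF
    have hk : KFin (τ F) := hW.subset (hcon F hF)
    have hk' : KFin (W \ τ F) := hW.subset (fun z hz => (mem_dif.1 hz).1)
    by_cases h1 : F = app g (τ F)
    · rw [hψ1 F h1]
      refine mem_Fam.2 ⟨?_, ?_, ?_⟩
      · intro x hx
        rw [mem_sing.1 hx]
        exact mem_pow.2 (hcon F hF)
      · intro x hx
        rw [mem_sing.1 hx]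
        exact ⟨hk, hT2 F hF⟩
      · intro x hx y hy hxy
        exact absurd ((mem_sing.1 hx).trans (mem_sing.1 hy).symm) hxy
    · rw [hψ2 F h1]
      have hx' : ∀ x : M, x ∈ ({τ F, W \ τ F} : M) → x = τ F ∨ x = W \ τ F := by
        intro x hx
        simpa using hx
      refine mem_Fam.2 ⟨?_, ?_, ?_⟩
      · intro x hx
        rcases hx' x hx with rfl | rfl
        · exact mem_pow.2 (hcon F hF)
        · exact mem_pow.2 (fun z hz => (mem_dif.1 hz).1)
      · intro x hx
        rcases hx' x hx with rfl | rfl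
        · exact ⟨hk, hT2 F hF⟩
        · exact ⟨hk', hC2 F hF⟩
      · intro x hx y hy hxy
        rcases hx' x hx with h2 | h2 <;> rcases hx' y hy with h3 | h3
        · exact absurd (h2.trans h3.symm) hxy
        · rw [h2, h3]
          exact fun z hz hz' => (mem_dif.1 hz').2 hz
        · rw [h2, h3]
          exact fun z hz hz' => (mem_dif.1 hz).2 hz'
        · exact absurd (h2.trans h3.symm) hxy
  have hval : ∀ F, F ∈ Fam W → ∀ G, G ∈ Fam W → ψ F = ψ G → τ F = τ G := by
    intro F hF G hG hFG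
    have h1 := hmem F hF
    rw [hFG] at h1
    by_cases h2 : G = app g (τ G)
    · rw [hψ1 G h2] at h1
      exact mem_sing.1 h1
    · rw [hψ2 G h2] at h1
      have h3 : τ F = τ G ∨ τ F = W \ τ G := by simpa using h1
      exact h3.resolve_right (hcov F hF G hG)
  have hcompl : ∀ F, F ∈ Fam W → F ≠ app g (τ F) → (W \ τ F) ∈ ψ F := by
    intro F _ h1
    rw [hψ2 F h1]; simp
  have hmixed : ∀ F, F ∈ Fam W → ∀ G, G ∈ Fam W → ψ F = ψ G → F = app g (τ F) →
      G = app g (τ G) := by
    intro F hF G hG hFG h1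
    by_contra h2
    have h3 := hcompl G hG h2
    rw [← hFG, hψ1 F h1, mem_sing] at h3
    exact hcov F hF G hG h3.symm
  have hinj : ∀ F, F ∈ Fam W → ∀ G, G ∈ Fam W → ψ F = ψ G → F = G := by
    intro F hF G hG hFG
    have h1 := hval F hF G hG hFG
    by_cases h2 : F = app g (τ F)
    · have h3 := hmixed F hF G hG hFG h2
      rw [h2, h1, ← h3]
    · have h3 : G ≠ app g (τ G) := fun h4 => h2 (hmixed G hG F hF hFG.symm h4)
      obtain ⟨h4, h5⟩ := hgR' G hG
      rcases h.two F (hFam F hF) G (hFam G hG) (app g (τ G)) (hFam _ h4) h1 h5.symm with h6 | h6 | h6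
      · exact h6
      · exact absurd h6 h3
      · rw [← h1] at h6
        exact absurd h6 h2
  have hempty : (∅ : M) ∈ Fam W := by
    refine mem_Fam.2 ⟨?_, ?_, ?_⟩
    · intro x hx
      exact absurd hx (notMem_empty x)
    · intro x hx
      exact absurd hx (notMem_empty x)
    · intro x hx
      exact absurd hx (notMem_empty x)
  obtain ⟨F, hF, hF'⟩ := hfin.surj_of_inj ψ hmaps hinj ∅ hempty
  have h1 := hmem F hF
  rw [hF'] at h1
  exact notMem_empty _ h1

end Pool.Agent.Lib.MP_1929a6_lc
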