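import Mathlib
import Pool.Agent.Lib.MP_1929a6_lc.Count

/-!
# A sequence of disjoint finite sets
-/

universe u

namespace Pool.Agent.Lib.MP_1929a6_lc

open Pool.Agent.ZF

variable {M : Type u} [Model M]

/-- one step of the construction of the increasing sequence of finite sets -/
noncomputable def stepW (τ : M → M) (W : M) : M := W ∪ sUn (img τ (Fam W))

instance (τ : M → M) [Ft₁ τ] : Ft₁ (stepW τ) := by unfold stepW; infer_instance

theorem exists_inj_aux {A : M} (hA : ¬ KFin A) (n : ℕ) :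
    ∃ (w : Fin n → M) (W : M), Function.Injective w ∧ (∀ i, w i ∈ A) ∧ KFin W ∧
      ∀ z, z ∈ W ↔ ∃ i, z = w i := by
  induction n with
  | zero =>
    exact ⟨fun i => i.elim0, ∅, fun i => i.elim0, fun i => i.elim0, KFin.empty,
      fun z => ⟨fun h => absurd h (notMem_empty z), fun ⟨i, _⟩ => i.elim0⟩⟩
  | succ n ih =>
    obtain ⟨w, W, hw, hwA, hW, hmem⟩ := ih
    have h1 : ∃ a, a ∈ A ∧ a ∉ W := by
      by_contra hcon
      push Not at hcon
      exact hA (hW.subset hcon)
    obtain ⟨a, ha, haW⟩ := h1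
    refine ⟨Fin.snoc w a, insert a W, ?_, ?_, hW.ins a, ?_⟩
    · intro i j hij
      induction i using Fin.lastCases with
      | last =>
        induction j using Fin.lastCases with
        | last => rfl
        | cast j =>
          simp only [Fin.snoc_last, Fin.snoc_castSucc] at hij
          exact absurd ((hmem a).2 ⟨j, hij⟩) haW
      | cast i =>
        induction j using Fin.lastCases with
        | last =>
          simp only [Fin.snoc_last, Fin.snoc_castSucc] at hij
          exact absurd ((hmem a).2 ⟨i, hij.symm⟩) haW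
        | cast j =>
          simp only [Fin.snoc_castSucc] at hij
          rw [hw hij]
    · intro i
      induction i using Fin.lastCases with
      | last => simpa only [Fin.snoc_last] using ha
      | cast i => simpa only [Fin.snoc_castSucc] using hwA i
    · intro z
      rw [mem_ins, hmem]
      constructor
      · rintro (rfl | ⟨i, rfl⟩)
        · exact ⟨Fin.last n, by rw [Fin.snoc_last]⟩
        · exact ⟨i.castSucc, by rw [Fin.snoc_castSucc]⟩
      · rintro ⟨i, rfl⟩
        induction i using Fin.lastCases with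
        | last => left; rw [Fin.snoc_last]
        | cast i => right; exact ⟨i, by rw [Fin.snoc_castSucc]⟩

/-- an infinite set has seven different elements -/
theorem exists_seven {A : M} (hA : ¬ KFin A) :
    ∃ w : Fin 7 → M, Function.Injective w ∧ ∀ i, w i ∈ A := by
  obtain ⟨w, _, hw, hwA, _⟩ := exists_inj_aux hA 7
  exact ⟨w, hw, hwA⟩

theorem Fam_mono {W A : M} (h : W ⊆ A) : Fam W ⊆ Fam A := by
  intro F hF
  simp only [Fam, mem_sep, mem_pow] at hF ⊢
  refine ⟨fun x hx => ?_, hF.2⟩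
  rw [mem_pow]
  exact sub_trans' (mem_pow.1 (hF.1 x hx)) h

theorem Fam_fin {W : M} (h : KFin W) : KFin (Fam W) := by
  refine h.pow.pow.subset ?_
  intro F hF
  exact (mem_sep.1 hF).1

theorem Three.fin {A t : M} (h : Three A t) : KFin t := by
  obtain ⟨a, b, c, _, _, _, _, _, _, rfl⟩ := h
  exact ((KFin.sing c).ins b).ins a

theorem Three.sub {A t : M} (h : Three A t) : t ⊆ A := by
  obtain ⟨a, b, c, ha, hb, hc, _, _, _, rfl⟩ := h
  intro z hz
  simp only [mem_ins, mem_sing] at hz
  rcases hz with rfl | rfl | rfl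
  · exact ha
  · exact hb
  · exact hc

theorem stepW_fin {A : M} {τ : M → M} [Ft₁ τ] (h : Hyp A τ) {W : M} (hW : KFin W)
    (hWA : W ⊆ A) : KFin (stepW τ W) := by
  refine hW.un (KFin.sUn ((Fam_fin hW).img τ) ?_)
  intro y hy
  rw [mem_img] at hy
  obtain ⟨F, hF, rfl⟩ := hy
  exact (h.three F (Fam_mono hWA F hF)).fin

theorem stepW_sub {A : M} {τ : M → M} [Ft₁ τ] (h : Hyp A τ) {W : M}
    (hWA : W ⊆ A) : stepW τ W ⊆ A := by
  intro z hz
  simp only [stepW, mem_un, mem_sUn, mem_img] at hz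
  rcases hz with hz | ⟨_, ⟨F, hF, rfl⟩, hz⟩
  · exact hWA z hz
  · exact (h.three F (Fam_mono hWA F hF)).sub z hz

theorem le_stepW (τ : M → M) [Ft₁ τ] (W : M) : W ⊆ stepW τ W := by
  intro z hz
  simp only [stepW, mem_un]
  exact Or.inl hz

theorem stepW_new {A : M} {τ : M → M} [Ft₁ τ] (h : Hyp A τ) {W : M} (hW : KFin W)
    (hWA : W ⊆ A) (w : Fin 7 → M) (hw : Function.Injective w) (hwW : ∀ i, w i ∈ W) :
    ∃ z, z ∈ stepW τ W ∧ z ∉ W := by
  obtain ⟨F, hF, hF'⟩ := count h hW hWA w hw hwW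
  have h1 : ∃ z, z ∈ τ F ∧ z ∉ W := by
    by_contra hcon
    push Not at hcon
    exact hF' hcon
  obtain ⟨z, hz, hz'⟩ := h1
  refine ⟨z, ?_, hz'⟩
  simp only [stepW, mem_un, mem_sUn, mem_img]
  exact Or.inr ⟨_, ⟨F, hF, rfl⟩, hz⟩

/-- there is an infinite sequence of disjoint nonempty finite subsets of `A`:
`D n = W (n+1) \ W n` where `W 0` consists of seven elements and `W (n+1) = stepW τ (W n)`. -/
theorem exists_seqD {A : M} {τ : M → M} [Ft₁ τ] (h : Hyp A τ) : ∃ D, SeqD A D := by
  obtain ⟨w, W₀, hw, hwA, hW₀, hmem⟩ := exists_inj_aux h.inf 7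
  have hW₀A : W₀ ⊆ A := by
    intro z hz
    obtain ⟨i, rfl⟩ := (hmem z).1 hz
    exact hwA i
  obtain ⟨f, hf, hdom, hf0, hfs⟩ := exists_om_rec W₀ (fun _ W => stepW τ W)
  have key : ∀ n, n ∈ (om : M) → KFin (app f n) ∧ app f n ⊆ A ∧ W₀ ⊆ app f n := by
    apply om_induction
    · rw [hf0]
      exact ⟨hW₀, hW₀A, sub_refl' _⟩
    · intro n hn ih
      rw [hfs n hn]
      exact ⟨stepW_fin h ih.1 ih.2.1, stepW_sub h ih.2.1, sub_trans' ih.2.2 (le_stepW τ _)⟩
  have mono : ∀ n, n ∈ (om : M) → ∀ m, m ∈ n → app f (succ m) ⊆ app f n := by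
    apply om_induction
    · intro m hm
      exact absurd hm (notMem_empty m)
    · intro n hn ih m hm
      rw [mem_succ] at hm
      rcases hm with rfl | hm
      · exact sub_refl' _
      · refine sub_trans' (ih m hm) ?_
        rw [hfs n hn]
        exact le_stepW τ _
  have hD : ∀ n, n ∈ (om : M) → app (gr (fun n => app f (succ n) \ app f n) om) n =
      app f (succ n) \ app f n := fun n hn => app_gr hn
  have hdisj : ∀ m, m ∈ (om : M) → ∀ n, n ∈ (om : M) → m ∈ n →
      Disj (app f (succ m) \ app f m) (app f (succ n) \ app f n) := by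
    intro m _ n hn hmn z hz hz'
    rw [mem_dif] at hz hz'
    exact hz'.2 (mono n hn m hmn z hz.1)
  refine ⟨gr (fun n => app f (succ n) \ app f n) om, gr_isFn, dom_gr, ?_, ?_, ?_, ?_⟩
  · intro n hn
    rw [hD n hn]
    refine (key (succ n) (succ_mem_om hn)).1.subset ?_
    intro z hz
    exact (mem_dif.1 hz).1
  · intro n hn
    rw [hD n hn]
    intro z hz
    exact (key (succ n) (succ_mem_om hn)).2.1 z (mem_dif.1 hz).1
  · intro n hn
    rw [hD n hn]
    obtain ⟨h1, h2, h3⟩ := key n hn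
    obtain ⟨z, hz, hz'⟩ := stepW_new h h1 h2 w hw (fun i => h3 _ ((hmem _).2 ⟨i, rfl⟩))
    refine ⟨z, mem_dif.2 ⟨?_, hz'⟩⟩
    rw [hfs n hn]
    exact hz
  · intro m hm n hn hne
    rw [hD m hm, hD n hn]
    rcases om_total hm hn with h1 | h1 | h1
    · exact hdisj m hm n hn h1
    · exact absurd h1 hne
    · exact (hdisj n hn m hm h1).symm

end Pool.Agent.Lib.MP_1929a6_lc
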