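import Mathlib
import Pool.Agent.Lib.MP_1929a6_lc.Setup

/-!
# Unions of chains of good systems, and a first good system
-/

universe u

namespace Pool.Agent.Lib.MP_1929a6_lc

open Pool.Agent.ZF

variable {M : Type u} [Model M]

theorem mem_fst_supS {C z : M} : z ∈ fst (supS C) ↔ ∃ S, S ∈ C ∧ z ∈ fst S := by
  simp only [supS, fst_pr, mem_sUn, mem_img]
  constructor
  · rintro ⟨_, ⟨S, hS, rfl⟩, hz⟩
    exact ⟨S, hS, hz⟩
  · rintro ⟨S, hS, hz⟩
    exact ⟨_, ⟨S, hS, rfl⟩, hz⟩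

theorem mem_snd_supS {C z : M} : z ∈ snd (supS C) ↔ ∃ S, S ∈ C ∧ z ∈ snd S := by
  simp only [supS, snd_pr, mem_sUn, mem_img]
  constructor
  · rintro ⟨_, ⟨S, hS, rfl⟩, hz⟩
    exact ⟨S, hS, hz⟩
  · rintro ⟨S, hS, hz⟩
    exact ⟨_, ⟨S, hS, rfl⟩, hz⟩

theorem mem_II_supS {C x : M} : x ∈ II (supS C) ↔ ∃ S, S ∈ C ∧ x ∈ II S := by
  simp only [II, mem_dom, mem_fst_supS]
  constructor
  · rintro ⟨y, S, hS, h⟩
    exact ⟨S, hS, y, h⟩
  · rintro ⟨S, hS, y, h⟩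
    exact ⟨y, S, hS, h⟩

theorem leS.II_sub {S T x : M} (h : leS S T) (hx : x ∈ II S) : x ∈ II T := by
  simp only [II, mem_dom] at hx ⊢
  obtain ⟨y, hy⟩ := hx
  exact ⟨y, h.1 _ hy⟩

/-- two members of a chain are contained in a common one -/
theorem Chain.two {C S T : M} (hch : Chain leS C) (hS : S ∈ C) (hT : T ∈ C) :
    ∃ U, U ∈ C ∧ leS S U ∧ leS T U := by
  rcases hch S hS T hT with h | h
  · exact ⟨T, hT, h, sub_refl' _, sub_refl' _⟩
  · exact ⟨S, hS, ⟨sub_refl' _, sub_refl' _⟩, h⟩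

theorem two_II {C x y : M} (hch : Chain leS C) (hx : x ∈ II (supS C)) (hy : y ∈ II (supS C)) :
    ∃ U, U ∈ C ∧ x ∈ II U ∧ y ∈ II U := by
  rw [mem_II_supS] at hx hy
  obtain ⟨S, hS, hx⟩ := hx
  obtain ⟨T, hT, hy⟩ := hy
  obtain ⟨U, hU, h1, h2⟩ := Chain.two hch hS hT
  exact ⟨U, hU, h1.II_sub hx, h2.II_sub hy⟩

theorem fst_supS_isFn {A D C : M} (hC : ∀ S, S ∈ C → Good A D S) (hch : Chain leS C) :
    IsFn (fst (supS C)) := by
  constructor
  · intro p hp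
    rw [mem_fst_supS] at hp
    obtain ⟨S, hS, hp⟩ := hp
    exact (hC S hS).wo.fn.1 p hp
  · intro x y y' h h'
    rw [mem_fst_supS] at h h'
    obtain ⟨S, hS, h⟩ := h
    obtain ⟨T, hT, h'⟩ := h'
    obtain ⟨U, hU, h1, h2⟩ := Chain.two hch hS hT
    exact (hC U hU).wo.fn.2 x y y' (h1.1 _ h) (h2.1 _ h')

theorem snd_supS_isFn {A D C : M} (hC : ∀ S, S ∈ C → Good A D S) (hch : Chain leS C) :
    IsFn (snd (supS C)) := by
  constructor
  · intro p hp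
    rw [mem_snd_supS] at hp
    obtain ⟨S, hS, hp⟩ := hp
    exact (hC S hS).jfn.1 p hp
  · intro x y y' h h'
    rw [mem_snd_supS] at h h'
    obtain ⟨S, hS, h⟩ := h
    obtain ⟨T, hT, h'⟩ := h'
    obtain ⟨U, hU, h1, h2⟩ := Chain.two hch hS hT
    exact (hC U hU).jfn.2 x y y' (h1.2 _ h) (h2.2 _ h')

theorem pd_supS {A D C S x : M} (hC : ∀ S, S ∈ C → Good A D S) (hch : Chain leS C) (hS : S ∈ C)
    (hx : x ∈ II S) : pd (supS C) x = pd S x := by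
  refine (fst_supS_isFn hC hch).app_eq ?_
  rw [mem_fst_supS]
  exact ⟨S, hS, (hC S hS).wo.fn.app_mem hx⟩

theorem jj_supS {A D C S x y : M} (hC : ∀ S, S ∈ C → Good A D S) (hch : Chain leS C) (hS : S ∈ C)
    (hx : x ∈ II S) (hy : y ∈ II S) : jj (supS C) x y = jj S x y := by
  refine (snd_supS_isFn hC hch).app_eq ?_
  rw [mem_snd_supS]
  refine ⟨S, hS, (hC S hS).jfn.app_mem ?_⟩
  rw [(hC S hS).jdom, pr_mem_prod]
  exact ⟨hx, hy⟩

theorem supS_WO {A D C : M} (hC : ∀ S, S ∈ C → Good A D S) (hch : Chain leS C) :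
    WO (fst (supS C)) := by
  refine ⟨fst_supS_isFn hC hch, ?_, ?_, ?_⟩
  · intro x hx z hz
    obtain ⟨S, hS, hxS⟩ := mem_II_supS.1 hx
    change z ∈ pd (supS C) x at hz
    rw [pd_supS hC hch hS hxS] at hz
    exact mem_II_supS.2 ⟨S, hS, (hC S hS).wo.sub x hxS z hz⟩
  · intro X hX ⟨x, hx⟩
    obtain ⟨S, hS, hxS⟩ := mem_II_supS.1 (hX x hx)
    obtain ⟨m, hm, hmin⟩ := (hC S hS).wo.wf (X ∩ II S) (fun z hz => (mem_int.1 hz).2)
      ⟨x, mem_int.2 ⟨hx, hxS⟩⟩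
    rw [mem_int] at hm
    refine ⟨m, hm.1, fun y hy hym => ?_⟩
    change y ∈ pd (supS C) m at hym
    rw [pd_supS hC hch hS hm.2] at hym
    exact hmin y (mem_int.2 ⟨hy, (hC S hS).wo.sub m hm.2 y hym⟩) hym
  · intro x hx y hy
    obtain ⟨U, hU, hxU, hyU⟩ := two_II hch hx hy
    have h1 := pd_supS hC hch hU hxU
    have h2 := pd_supS hC hch hU hyU
    unfold pd at h1 h2
    rw [h1, h2]
    exact (hC U hU).wo.tot x hxU y hyU

/-- the union of a nonempty chain of good systems is good -/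
theorem supS_good {A D C : M} (hC : ∀ S, S ∈ C → Good A D S) (hne : ∃ S, S ∈ C)
    (hch : Chain leS C) : Good A D (supS C) := by
  refine ⟨?_, supS_WO hC hch, ?_, ?_, ?_, ?_, ?_, snd_supS_isFn hC hch, ?_, ?_, ?_⟩
  · simp only [supS, fst_pr, snd_pr]
  · intro x hx
    obtain ⟨S, hS, hxS⟩ := mem_II_supS.1 hx
    exact (hC S hS).fin x hxS
  · intro x hx
    obtain ⟨S, hS, hxS⟩ := mem_II_supS.1 hx
    exact (hC S hS).sub x hxS
  · intro x hx
    obtain ⟨S, hS, hxS⟩ := mem_II_supS.1 hx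
    exact (hC S hS).ne x hxS
  · intro x hx y hy hxy
    obtain ⟨U, hU, hxU, hyU⟩ := two_II hch hx hy
    exact (hC U hU).disj x hxU y hyU hxy
  · intro n hn
    obtain ⟨S, hS⟩ := hne
    exact mem_II_supS.2 ⟨S, hS, (hC S hS).base n hn⟩
  · refine ext' fun p => ?_
    constructor
    · intro hp
      rw [mem_dom] at hp
      obtain ⟨y, hy⟩ := hp
      obtain ⟨S, hS, hy⟩ := mem_snd_supS.1 hy
      have h1 : p ∈ dom (snd S) := mem_dom.2 ⟨y, hy⟩
      rw [(hC S hS).jdom, mem_prod] at h1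
      obtain ⟨a, ha, b, hb, rfl⟩ := h1
      exact pr_mem_prod.2 ⟨mem_II_supS.2 ⟨S, hS, ha⟩, mem_II_supS.2 ⟨S, hS, hb⟩⟩
    · intro hp
      rw [mem_prod] at hp
      obtain ⟨a, ha, b, hb, rfl⟩ := hp
      obtain ⟨U, hU, haU, hbU⟩ := two_II hch ha hb
      have h1 : pr a b ∈ dom (snd U) := by
        rw [(hC U hU).jdom, pr_mem_prod]
        exact ⟨haU, hbU⟩
      rw [mem_dom] at h1 ⊢
      obtain ⟨y, hy⟩ := h1
      exact ⟨y, mem_snd_supS.2 ⟨U, hU, hy⟩⟩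
  · intro x hx y hy
    obtain ⟨U, hU, hxU, hyU⟩ := two_II hch hx hy
    rw [jj_supS hC hch hU hxU hyU]
    exact mem_II_supS.2 ⟨U, hU, (hC U hU).jmem x hxU y hyU⟩
  · intro x hx y hy x' hx' y' hy' hj
    obtain ⟨U, hU, hxU, hyU⟩ := two_II hch hx hy
    obtain ⟨V, hV, hxV, hyV⟩ := two_II hch hx' hy'
    obtain ⟨W, hW, h1, h2⟩ := Chain.two hch hU hV
    rw [jj_supS hC hch hW (h1.II_sub hxU) (h1.II_sub hyU),
      jj_supS hC hch hW (h2.II_sub hxV) (h2.II_sub hyV)] at hj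
    exact (hC W hW).jinj x (h1.II_sub hxU) y (h1.II_sub hyU) x' (h2.II_sub hxV) y'
      (h2.II_sub hyV) hj

theorem SeqD.inj {A D m n : M} (hD : SeqD A D) (hm : m ∈ (om : M)) (hn : n ∈ (om : M))
    (h : app D m = app D n) : m = n := by
  by_contra hne
  obtain ⟨z, hz⟩ := hD.ne m hm
  have h1 := hD.disj m hm n hn hne
  rw [← h] at h1
  exact h1 z hz hz

/-- the well-ordering of the first good system -/
noncomputable def s0 (D : M) : M :=
  img (fun n => pr (app D n) (img (fun m => app D m) n)) om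

/-- the pairing function of the first good system -/
noncomputable def j0 (D g : M) : M :=
  img (fun p => pr (pr (app D (fst p)) (app D (snd p))) (app D (app g p))) (prod om om)

theorem mem_s0 {D z : M} : z ∈ s0 D ↔ ∃ n, n ∈ (om : M) ∧
    z = pr (app D n) (img (fun m => app D m) n) := by
  simp only [s0, mem_img]

theorem pr_mem_j0 {D g z : M} : z ∈ j0 D g ↔ ∃ m, m ∈ (om : M) ∧ ∃ n, n ∈ (om : M) ∧
    z = pr (pr (app D m) (app D n)) (app D (app g (pr m n))) := by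
  simp only [j0, mem_img]
  constructor
  · rintro ⟨p, hp, rfl⟩
    rw [mem_prod] at hp
    obtain ⟨m, hm, n, hn, rfl⟩ := hp
    exact ⟨m, hm, n, hn, by rw [fst_pr, snd_pr]⟩
  · rintro ⟨m, hm, n, hn, rfl⟩
    exact ⟨pr m n, pr_mem_prod.2 ⟨hm, hn⟩, by rw [fst_pr, snd_pr]⟩

/-- there is a good system: index set `{D n : n ∈ ω}` -/
theorem exists_good {A D : M} (hD : SeqD A D) : ∃ S, Good A D S := by
  obtain ⟨g, hg1, hg2, hg3, hg4⟩ := exists_pairing (M := M)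
  have hdom : ∀ x, x ∈ dom (s0 D) ↔ ∃ n, n ∈ (om : M) ∧ x = app D n := by
    intro x
    simp only [mem_dom, mem_s0, pr_inj]
    constructor
    · rintro ⟨y, n, hn, h, _⟩
      exact ⟨n, hn, h⟩
    · rintro ⟨n, hn, h⟩
      exact ⟨_, n, hn, h, rfl⟩
  have hsfn : IsFn (s0 D) := by
    constructor
    · intro p hp
      obtain ⟨n, _, rfl⟩ := mem_s0.1 hp
      exact ⟨_, _, rfl⟩
    · intro x y y' h h'
      rw [mem_s0] at h h'
      obtain ⟨n, hn, h⟩ := h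
      obtain ⟨n', hn', h'⟩ := h'
      rw [pr_inj] at h h'
      have := hD.inj hn hn' (h.1.symm.trans h'.1)
      subst this
      rw [h.2, h'.2]
  have happ : ∀ n, n ∈ (om : M) → app (s0 D) (app D n) = img (fun m => app D m) n :=
    fun n hn => hsfn.app_eq (mem_s0.2 ⟨n, hn, rfl⟩)
  have hjfn : IsFn (j0 D g) := by
    constructor
    · intro p hp
      obtain ⟨m, _, n, _, rfl⟩ := pr_mem_j0.1 hp
      exact ⟨_, _, rfl⟩
    · intro x y y' h h'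
      rw [pr_mem_j0] at h h'
      obtain ⟨m, hm, n, hn, h⟩ := h
      obtain ⟨m', hm', n', hn', h'⟩ := h'
      rw [pr_inj] at h h'
      have h2 := h.1.symm.trans h'.1
      rw [pr_inj] at h2
      have e1 := hD.inj hm hm' h2.1
      have e2 := hD.inj hn hn' h2.2
      subst e1 e2
      rw [h.2, h'.2]
  have hjapp : ∀ m, m ∈ (om : M) → ∀ n, n ∈ (om : M) →
      app (j0 D g) (pr (app D m) (app D n)) = app D (app g (pr m n)) :=
    fun m hm n hn => hjfn.app_eq (pr_mem_j0.2 ⟨m, hm, n, hn, rfl⟩)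
  have hII : ∀ x, x ∈ II (pr (s0 D) (j0 D g)) ↔ ∃ n, n ∈ (om : M) ∧ x = app D n := by
    intro x
    rw [II, fst_pr, hdom]
  refine ⟨pr (s0 D) (j0 D g), ?_, ?_, ?_, ?_, ?_, ?_, ?_, ?_, ?_, ?_, ?_⟩
  · rw [fst_pr, snd_pr]
  · rw [fst_pr]
    refine ⟨hsfn, ?_, ?_, ?_⟩
    · intro x hx z hz
      obtain ⟨n, hn, rfl⟩ := (hdom x).1 hx
      rw [happ n hn, mem_img] at hz
      obtain ⟨m, hm, rfl⟩ := hz
      exact (hdom _).2 ⟨m, mem_om_of_mem hn hm, rfl⟩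
    · intro X hX ⟨x, hx⟩
      obtain ⟨n, hn, hxn⟩ := (hdom x).1 (hX x hx)
      obtain ⟨k, hk, hk'⟩ := foundation (x := sep (om : M) (fun n => app D n ∈ X))
        ⟨n, by rw [mem_sep]; exact ⟨hn, hxn ▸ hx⟩⟩
      rw [mem_sep] at hk
      refine ⟨app D k, hk.2, fun y hy hyk => ?_⟩
      rw [happ k hk.1, mem_img] at hyk
      obtain ⟨m, hm, rfl⟩ := hyk
      exact hk' m (mem_sep.2 ⟨mem_om_of_mem hk.1 hm, hy⟩) hm
    · intro x hx y hy
      obtain ⟨m, hm, rfl⟩ := (hdom x).1 hx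
      obtain ⟨n, hn, rfl⟩ := (hdom y).1 hy
      rw [happ m hm, happ n hn, mem_img, mem_img]
      rcases om_total hm hn with h | h | h
      · exact Or.inl ⟨m, h, rfl⟩
      · exact Or.inr (Or.inl (by rw [h]))
      · exact Or.inr (Or.inr ⟨n, h, rfl⟩)
  · intro x hx
    obtain ⟨n, hn, rfl⟩ := (hII x).1 hx
    exact hD.fin n hn
  · intro x hx
    obtain ⟨n, hn, rfl⟩ := (hII x).1 hx
    exact hD.sub n hn
  · intro x hx
    obtain ⟨n, hn, rfl⟩ := (hII x).1 hx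
    exact hD.ne n hn
  · intro x hx y hy hxy
    obtain ⟨m, hm, rfl⟩ := (hII x).1 hx
    obtain ⟨n, hn, rfl⟩ := (hII y).1 hy
    exact hD.disj m hm n hn (fun h => hxy (by rw [h]))
  · intro n hn
    exact (hII _).2 ⟨n, hn, rfl⟩
  · rw [snd_pr]
    exact hjfn
  · rw [snd_pr]
    refine ext' fun p => ?_
    rw [mem_dom, mem_prod]
    constructor
    · rintro ⟨y, hy⟩
      obtain ⟨m, hm, n, hn, h⟩ := pr_mem_j0.1 hy
      rw [pr_inj] at h
      exact ⟨_, (hII _).2 ⟨m, hm, rfl⟩, _, (hII _).2 ⟨n, hn, rfl⟩, h.1⟩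
    · rintro ⟨x, hx, y, hy, rfl⟩
      obtain ⟨m, hm, rfl⟩ := (hII x).1 hx
      obtain ⟨n, hn, rfl⟩ := (hII y).1 hy
      exact ⟨_, pr_mem_j0.2 ⟨m, hm, n, hn, rfl⟩⟩
  · intro x hx y hy
    obtain ⟨m, hm, rfl⟩ := (hII x).1 hx
    obtain ⟨n, hn, rfl⟩ := (hII y).1 hy
    rw [jj, snd_pr, hjapp m hm n hn]
    exact (hII _).2 ⟨_, hg3 m hm n hn, rfl⟩
  · intro x hx y hy x' hx' y' hy' h
    obtain ⟨m, hm, rfl⟩ := (hII x).1 hx
    obtain ⟨n, hn, rfl⟩ := (hII y).1 hy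
    obtain ⟨m', hm', rfl⟩ := (hII x').1 hx'
    obtain ⟨n', hn', rfl⟩ := (hII y').1 hy'
    rw [jj, jj, snd_pr, hjapp m hm n hn, hjapp m' hm' n' hn'] at h
    have h2 := hD.inj (hg3 m hm n hn) (hg3 m' hm' n' hn') h
    obtain ⟨e1, e2⟩ := hg4 m hm n hn m' hm' n' hn' h2
    rw [e1, e2]
    exact ⟨rfl, rfl⟩

/-- all good systems belong to one set -/
theorem good_mem {A D S : M} (hS : Good A D S) :
    S ∈ prod (pow (prod (pow A) (pow (pow A)))) (pow (prod (prod (pow A) (pow A)) (pow A))) := by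
  rw [hS.pair, pr_mem_prod, mem_pow, mem_pow]
  constructor
  · intro p hp
    obtain ⟨x, y, rfl⟩ := hS.wo.fn.1 p hp
    have hx : x ∈ II S := mem_dom.2 ⟨y, hp⟩
    have hy : pd S x = y := hS.wo.fn.app_eq hp
    rw [pr_mem_prod, mem_pow, mem_pow]
    refine ⟨hS.sub x hx, fun z hz => ?_⟩
    rw [← hy] at hz
    exact mem_pow.2 (hS.sub z (hS.wo.sub x hx z hz))
  · intro p hp
    obtain ⟨x, y, rfl⟩ := hS.jfn.1 p hp
    have hx : x ∈ dom (snd S) := mem_dom.2 ⟨y, hp⟩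
    have hy : app (snd S) x = y := hS.jfn.app_eq hp
    rw [hS.jdom, mem_prod] at hx
    obtain ⟨a, ha, b, hb, rfl⟩ := hx
    rw [pr_mem_prod, pr_mem_prod, mem_pow, mem_pow, mem_pow]
    refine ⟨⟨hS.sub a ha, hS.sub b hb⟩, ?_⟩
    rw [← hy]
    exact hS.sub _ (hS.jmem a ha b hb)

end Pool.Agent.Lib.MP_1929a6_lc
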