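import Mathlib
import Pool.Agent.Lib.MP_1929a6_lc.Setup

/-!
# The diagonal construction
-/

universe u

namespace Pool.Agent.Lib.MP_1929a6_lc

open Pool.Agent.ZF

variable {M : Type u} [Model M]

theorem i0_mem {A D S : M} (hS : Good A D S) : i0 D ∈ II S := hS.base ∅ empty_mem_om

theorem i1_mem {A D S : M} (hS : Good A D S) : i1 D ∈ II S :=
  hS.base (succ ∅) (succ_mem_om empty_mem_om)

theorem i2_mem {A D S : M} (hS : Good A D S) : i2 D ∈ II S :=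
  hS.base (succ (succ ∅)) (succ_mem_om (succ_mem_om empty_mem_om))

theorem app_D_inj {A D : M} (hD : SeqD A D) {m n : M} (hm : m ∈ (om : M)) (hn : n ∈ (om : M))
    (h : app D m = app D n) : m = n := by
  by_contra hne
  obtain ⟨z, hz⟩ := hD.ne m hm
  exact hD.disj m hm n hn hne z hz (h ▸ hz)

theorem i0_ne_i1 {A D : M} (hD : SeqD A D) : i0 D ≠ i1 D := by
  intro h
  have := app_D_inj hD empty_mem_om (succ_mem_om empty_mem_om) h
  exact succ_ne_empty _ this.symm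

theorem i0_ne_i2 {A D : M} (hD : SeqD A D) : i0 D ≠ i2 D := by
  intro h
  have := app_D_inj hD empty_mem_om (succ_mem_om (succ_mem_om empty_mem_om)) h
  exact succ_ne_empty _ this.symm

theorem i1_ne_i2 {A D : M} (hD : SeqD A D) : i1 D ≠ i2 D := by
  intro h
  have := app_D_inj hD (succ_mem_om empty_mem_om) (succ_mem_om (succ_mem_om empty_mem_om)) h
  exact succ_ne_empty _ (succ_inj this).symm

theorem EE_disj {A D S : M} (hS : Good A D S) {x y : M} (hx : x ∈ II S)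
    (hy : y ∈ II S) (h : x ≠ y) : Disj (EE D S x) (EE D S y) := by
  have h0 := i0_mem hS
  have h1 := i1_mem hS
  have key : ∀ u, u ∈ II S → ∀ v, v ∈ II S → Disj (jj S x u) (jj S y v) := fun u hu v hv =>
    hS.disj _ (hS.jmem x hx u hu) _ (hS.jmem y hy v hv)
      fun h' => h (hS.jinj x hx u hu y hy v hv h').1
  intro z hz hz'
  rw [EE, mem_un] at hz hz'
  rcases hz with hz | hz <;> rcases hz' with hz' | hz'
  · exact key _ h0 _ h0 z hz hz'
  · exact key _ h0 _ h1 z hz hz'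
  · exact key _ h1 _ h0 z hz hz'
  · exact key _ h1 _ h1 z hz hz'

theorem EE_ne {A D S : M} (hS : Good A D S) {x : M} (hx : x ∈ II S) : ∃ z, z ∈ EE D S x := by
  obtain ⟨z, hz⟩ := hS.ne _ (hS.jmem x hx _ (i0_mem hS))
  exact ⟨z, mem_un.2 (Or.inl hz)⟩

theorem FF_mem_Fam {A D S : M} (hD : SeqD A D) (hS : Good A D S) {Y : M} (hY : Y ⊆ II S) :
    FF D S Y ∈ Fam A := by
  have h0 := i0_mem hS
  have h1 := i1_mem hS
  rw [Fam, mem_sep, mem_pow]
  refine ⟨?_, ?_, ?_⟩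
  · intro e he
    rw [FF, mem_img] at he
    obtain ⟨x, hx, rfl⟩ := he
    rw [mem_pow]
    intro z hz
    rw [EE, mem_un] at hz
    rcases hz with hz | hz
    · exact hS.sub _ (hS.jmem x (hY x hx) _ h0) z hz
    · exact hS.sub _ (hS.jmem x (hY x hx) _ h1) z hz
  · intro e he
    rw [FF, mem_img] at he
    obtain ⟨x, hx, rfl⟩ := he
    have j0 := hS.jmem x (hY x hx) _ h0
    have j1 := hS.jmem x (hY x hx) _ h1
    refine ⟨(hS.fin _ j0).un (hS.fin _ j1), ?_⟩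
    obtain ⟨u, hu⟩ := hS.ne _ j0
    obtain ⟨v, hv⟩ := hS.ne _ j1
    refine ⟨u, v, mem_un.2 (Or.inl hu), mem_un.2 (Or.inr hv), ?_⟩
    rintro rfl
    exact hS.disj _ j0 _ j1 (fun h => i0_ne_i1 hD
      (hS.jinj x (hY x hx) _ h0 x (hY x hx) _ h1 h).2) u hu hv
  · intro e he e' he' hne
    rw [FF, mem_img] at he he'
    obtain ⟨x, hx, rfl⟩ := he
    obtain ⟨y, hy, rfl⟩ := he'
    exact EE_disj hS (hY x hx) (hY y hy) fun h => hne (by rw [h])

theorem FF_inj_aux {A D S : M} (hS : Good A D S) {Y Y' : M} (hY : Y ⊆ II S)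
    (hY' : Y' ⊆ II S) (h : FF D S Y = FF D S Y') : Y ⊆ Y' := by
  intro x hx
  have h1 : EE D S x ∈ FF D S Y := by
    rw [FF, mem_img]
    exact ⟨x, hx, rfl⟩
  rw [h, FF, mem_img] at h1
  obtain ⟨x', hx', h2⟩ := h1
  by_cases hxx : x = x'
  · rw [hxx]; exact hx'
  · obtain ⟨z, hz⟩ := EE_ne hS (hY x hx)
    exact absurd (h2 ▸ hz) (EE_disj hS (hY x hx) (hY' x' hx') hxx z hz)

theorem FF_inj {A D S : M} (hS : Good A D S) {Y Y' : M} (hY : Y ⊆ II S)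
    (hY' : Y' ⊆ II S) (h : FF D S Y = FF D S Y') : Y = Y' :=
  sub_antisymm (FF_inj_aux hS hY hY' h) (FF_inj_aux hS hY' hY h.symm)

theorem mem_XX {D S W Y : M} {τ : M → M} [Ft₁ τ] :
    Y ∈ XX τ D S W ↔ Y ⊆ II S ∧ τ (FF D S Y) ⊆ W := by
  rw [XX, mem_sep, mem_pow]

/-- for finite `W` only finitely many `Y` have their value inside `W` -/
theorem KFin_XX {A D S : M} {τ : M → M} [Ft₁ τ] (h : Hyp A τ) (hD : SeqD A D) (hS : Good A D S)
    {W : M} (hW : KFin W) : KFin (XX τ D S W) := by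
  refine KFin.of_fibres (fun Y => τ (FF D S Y)) hW.pow (fun Y hY => ?_) (fun v _ => ?_)
  · exact mem_pow.2 (mem_XX.1 hY).2
  · refine KFin.of_two fun a ha b hb c hc => ?_
    obtain ⟨ha1, ha2⟩ := mem_sep.1 ha
    obtain ⟨hb1, hb2⟩ := mem_sep.1 hb
    obtain ⟨hc1, hc2⟩ := mem_sep.1 hc
    have ha3 := (mem_XX.1 ha1).1
    have hb3 := (mem_XX.1 hb1).1
    have hc3 := (mem_XX.1 hc1).1
    rcases h.two _ (FF_mem_Fam hD hS ha3) _ (FF_mem_Fam hD hS hb3) _ (FF_mem_Fam hD hS hc3)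
      (ha2.trans hb2.symm) (hb2.trans hc2.symm) with h1 | h1 | h1
    · exact Or.inl (FF_inj hS ha3 hb3 h1)
    · exact Or.inr (Or.inl (FF_inj hS hb3 hc3 h1))
    · exact Or.inr (Or.inr (FF_inj hS ha3 hc3 h1))

theorem mem_Tr {S t : M} : t ∈ Tr S ↔ ∃ a b c, a ∈ II S ∧ b ∈ II S ∧ c ∈ II S ∧
    t = pr a (pr b c) := by
  rw [Tr, mem_prod]
  constructor
  · rintro ⟨a, ha, y, hy, rfl⟩
    obtain ⟨b, hb, c, hc, rfl⟩ := mem_prod.1 hy
    exact ⟨a, b, c, ha, hb, hc, rfl⟩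
  · rintro ⟨a, b, c, ha, hb, hc, rfl⟩
    exact ⟨a, ha, _, mem_prod.2 ⟨b, hb, c, hc, rfl⟩, rfl⟩

theorem hh_pr {D S a b c m : M} : hh D S (pr a (pr b c)) m =
    jj S a (jj S b (jj S c (app D m))) := by
  simp only [hh, fst_pr, snd_pr]

theorem hh_mem {A D S : M} (hS : Good A D S) {t m : M} (ht : t ∈ Tr S) (hm : m ∈ (om : M)) :
    hh D S t m ∈ II S := by
  obtain ⟨a, b, c, ha, hb, hc, rfl⟩ := mem_Tr.1 ht
  rw [hh_pr]
  exact hS.jmem a ha _ (hS.jmem b hb _ (hS.jmem c hc _ (hS.base m hm)))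

theorem hh_inj {A D S : M} (hD : SeqD A D) (hS : Good A D S) {t m t' m' : M} (ht : t ∈ Tr S)
    (hm : m ∈ (om : M)) (ht' : t' ∈ Tr S) (hm' : m' ∈ (om : M))
    (h : hh D S t m = hh D S t' m') : t = t' ∧ m = m' := by
  obtain ⟨a, b, c, ha, hb, hc, rfl⟩ := mem_Tr.1 ht
  obtain ⟨a', b', c', ha', hb', hc', rfl⟩ := mem_Tr.1 ht'
  rw [hh_pr, hh_pr] at h
  have d := hS.base m hm
  have d' := hS.base m' hm'
  have e := hS.jmem c hc _ d
  have e' := hS.jmem c' hc' _ d'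
  obtain ⟨h1, h2⟩ := hS.jinj _ ha _ (hS.jmem b hb _ e) _ ha' _ (hS.jmem b' hb' _ e') h
  obtain ⟨h3, h4⟩ := hS.jinj _ hb _ e _ hb' _ e' h2
  obtain ⟨h5, h6⟩ := hS.jinj _ hc _ d _ hc' _ d' h4
  refine ⟨?_, app_D_inj hD hm hm' h6⟩
  rw [h1, h3, h5]

theorem Three.sub {A t : M} (h : Three A t) : t ⊆ A := by
  obtain ⟨a, b, c, ha, hb, hc, -, -, -, rfl⟩ := h
  intro z hz
  rw [mem_ins, mem_ins, mem_sing] at hz
  rcases hz with rfl | rfl | rfl <;> assumption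

theorem Three.fin {A t : M} (h : Three A t) : KFin t := by
  obtain ⟨a, b, c, ha, hb, hc, -, -, -, rfl⟩ := h
  exact KFin.ins a (KFin.ins b (KFin.sing c))

theorem KFin_WW {S O t : M} (hOf : ∀ a, a ∈ II S → KFin (app O a)) (ht : t ∈ Tr S) :
    KFin (WW O t) := by
  obtain ⟨a, b, c, ha, hb, hc, rfl⟩ := mem_Tr.1 ht
  simp only [WW, fst_pr, snd_pr]
  exact (hOf a ha).un ((hOf b hb).un (hOf c hc))

theorem ZZ_mem {A D S : M} {τ : M → M} [Ft₁ τ] (h : Hyp A τ) (hD : SeqD A D) (hS : Good A D S)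
    {O t : M} (hOf : ∀ a, a ∈ II S → KFin (app O a)) (ht : t ∈ Tr S) :
    ZZ τ D S O t ∈ (om : M) ∧ ∀ Y, Y ∈ XX τ D S (WW O t) → tr D S t Y ≠ ZZ τ D S O t := by
  have key : ZZ τ D S O t ∈ sep om (fun n => ∀ Y, Y ∈ XX τ D S (WW O t) → tr D S t Y ≠ n) := by
    refine least_mem (fun z hz => (mem_sep.1 hz).1) ?_
    by_contra hc
    push Not at hc
    refine om_not_KFin (M := M) (KFin.subset (KFin.img (fun Y => tr D S t Y)
      (KFin_XX h hD hS (KFin_WW hOf ht))) fun n hn => ?_)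
    have h1 := hc n
    rw [mem_sep] at h1
    push Not at h1
    obtain ⟨Y, hY, hY'⟩ := h1 hn
    exact mem_img.2 ⟨Y, hY, hY'.symm⟩
  exact mem_sep.1 key

theorem YY_sub {D S O : M} {τ : M → M} [Ft₁ τ] : YY τ D S O ⊆ II S :=
  fun _ hz => (mem_sep.1 hz).1

theorem tr_YY {A D S : M} {τ : M → M} [Ft₁ τ] (h : Hyp A τ) (hD : SeqD A D) (hS : Good A D S)
    {O t : M} (hOf : ∀ a, a ∈ II S → KFin (app O a)) (ht : t ∈ Tr S) :
    tr D S t (YY τ D S O) = ZZ τ D S O t := by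
  refine ext' fun m => ?_
  rw [tr, mem_sep]
  constructor
  · rintro ⟨hm, hm'⟩
    obtain ⟨-, t', ht', m', hm', he⟩ := mem_sep.1 hm'
    have hmo := mem_om_of_mem (ZZ_mem h hD hS hOf ht').1 hm'
    obtain ⟨rfl, rfl⟩ := hh_inj hD hS ht hm ht' hmo he
    exact hm'
  · intro hm
    have hmo := mem_om_of_mem (ZZ_mem h hD hS hOf ht).1 hm
    exact ⟨hmo, mem_sep.2 ⟨hh_mem hS ht hmo, t, ht, m, hm, rfl⟩⟩

/-- the main property of the diagonal construction -/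
theorem NN_spec {A D S : M} {τ : M → M} [Ft₁ τ] (h : Hyp A τ) (hD : SeqD A D) (hS : Good A D S)
    {O : M} (hO : IsFn O) (hOd : dom O = II S) (hOf : ∀ a, a ∈ II S → KFin (app O a)) :
    (∃ z, z ∈ NN τ D S O) ∧ NN τ D S O ⊆ A ∧ KFin (NN τ D S O) ∧
      ∀ a, a ∈ II S → Disj (NN τ D S O) (app O a) := by
  have h3 : Three A (τ (FF D S (YY τ D S O))) := h.three _ (FF_mem_Fam hD hS YY_sub)
  have hsub : NN τ D S O ⊆ τ (FF D S (YY τ D S O)) := fun z hz => (mem_dif.1 hz).1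
  refine ⟨?_, fun z hz => h3.sub z (hsub z hz), h3.fin.subset hsub, ?_⟩
  · by_contra hc
    push Not at hc
    have hall : ∀ z, z ∈ τ (FF D S (YY τ D S O)) → ∃ a, a ∈ II S ∧ z ∈ app O a := by
      intro z hz
      have h4 : z ∈ sUn (ran O) := by
        by_contra h5
        exact hc z (mem_dif.2 ⟨hz, h5⟩)
      obtain ⟨y, hy, hzy⟩ := mem_sUn.1 h4
      obtain ⟨a, ha⟩ := mem_ran.1 hy
      obtain ⟨ha1, ha2⟩ := hO.pr_mem_iff.1 ha
      exact ⟨a, hOd ▸ ha1, by rw [ha2]; exact hzy⟩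
    obtain ⟨a, b, c, ha, hb, hc', -, -, -, he⟩ := h3
    obtain ⟨a', ha', haa⟩ := hall a (by rw [he]; simp)
    obtain ⟨b', hb', hbb⟩ := hall b (by rw [he]; simp)
    obtain ⟨c', hc'', hcc⟩ := hall c (by rw [he]; simp)
    have ht : pr a' (pr b' c') ∈ Tr S := mem_Tr.2 ⟨a', b', c', ha', hb', hc'', rfl⟩
    have hX : YY τ D S O ∈ XX τ D S (WW O (pr a' (pr b' c'))) := by
      refine mem_XX.2 ⟨YY_sub, ?_⟩
      rw [he]
      intro z hz
      simp only [WW, fst_pr, snd_pr, mem_un]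
      rw [mem_ins, mem_ins, mem_sing] at hz
      rcases hz with rfl | rfl | rfl
      · exact Or.inl haa
      · exact Or.inr (Or.inl hbb)
      · exact Or.inr (Or.inr hcc)
    exact (ZZ_mem h hD hS hOf ht).2 _ hX (tr_YY h hD hS hOf ht)
  · intro a ha z hz hz'
    refine (mem_dif.1 hz).2 (mem_sUn.2 ⟨app O a, ?_, hz'⟩)
    exact mem_ran.2 ⟨a, hO.app_mem (hOd ▸ ha)⟩

end Pool.Agent.Lib.MP_1929a6_lc
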