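import Mathlib
import Pool.Agent.Lib.MP_1929a6_lc.Diag

/-!
# The sequence of new sets
-/

universe u

namespace Pool.Agent.Lib.MP_1929a6_lc

open Pool.Agent.ZF

variable {M : Type u} [Model M]

theorem Old_isFn {D S f : M} : IsFn (Old D S f) := gr_isFn

theorem dom_Old {D S f : M} : dom (Old D S f) = II S := dom_gr

theorem app_Old {D S f a : M} (ha : a ∈ II S) :
    app (Old D S f) a = sUn (sep (II S) (fun k => a = jj S (i0 D) k)) ∪
      sUn (img (fun k => app f k) (sep (dom f) (fun k => a = jj S (i1 D) k))) :=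
  app_gr ha

/-- every member of the family occurs among the old sets -/
theorem Old_left {A D S f k : M} (hS : Good A D S) (hk : k ∈ II S) (hD : SeqD A D)
    (hf : dom f ⊆ II S) :
    app (Old D S f) (jj S (i0 D) k) = k := by
  rw [app_Old (hS.jmem _ (i0_mem hS) _ hk)]
  refine ext' fun z => ?_
  simp only [mem_un, mem_sUn, mem_sep, mem_img]
  constructor
  · rintro (⟨y, ⟨hy, h⟩, hz⟩ | ⟨y, ⟨x, ⟨hx, h⟩, -⟩, -⟩)
    · rw [(hS.jinj _ (i0_mem hS) _ hk _ (i0_mem hS) _ hy h).2]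
      exact hz
    · exact absurd (hS.jinj _ (i0_mem hS) _ hk _ (i1_mem hS) _ (hf _ hx) h).1 (i0_ne_i1 hD)
  · intro hz
    exact Or.inl ⟨k, ⟨hk, rfl⟩, hz⟩

/-- every value of `f` occurs among the old sets -/
theorem Old_right {A D S f k : M} (hS : Good A D S) (hD : SeqD A D) (hf : dom f ⊆ II S)
    (hk : k ∈ dom f) : app (Old D S f) (jj S (i1 D) k) = app f k := by
  rw [app_Old (hS.jmem _ (i1_mem hS) _ (hf _ hk))]
  refine ext' fun z => ?_
  simp only [mem_un, mem_sUn, mem_sep, mem_img]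
  constructor
  · rintro (⟨y, ⟨hy, h⟩, hz⟩ | ⟨y, ⟨x, ⟨hx, h⟩, rfl⟩, hz⟩)
    · exact absurd (hS.jinj _ (i1_mem hS) _ (hf _ hk) _ (i0_mem hS) _ hy h).1
        (i0_ne_i1 hD).symm
    · rw [(hS.jinj _ (i1_mem hS) _ (hf _ hk) _ (i1_mem hS) _ (hf _ hx) h).2]
      exact hz
  · intro hz
    exact Or.inr ⟨_, ⟨k, ⟨hk, rfl⟩, rfl⟩, hz⟩

theorem Old_KFin {A D S f : M} (hS : Good A D S) (hD : SeqD A D) (hf : dom f ⊆ II S)
    (hfin : ∀ k, k ∈ dom f → KFin (app f k)) {a : M} (ha : a ∈ II S) :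
    KFin (app (Old D S f) a) := by
  rw [app_Old ha]
  refine KFin.un (KFin.sUn ?_ ?_) (KFin.sUn (KFin.img _ ?_) ?_)
  · refine KFin.of_two fun u hu v hv w hw => Or.inl ?_
    rw [mem_sep] at hu hv
    exact (hS.jinj _ (i0_mem hS) _ hu.1 _ (i0_mem hS) _ hv.1 (hu.2.symm.trans hv.2)).2
  · intro y hy
    rw [mem_sep] at hy
    exact hS.fin _ hy.1
  · refine KFin.of_two fun u hu v hv w hw => Or.inl ?_
    rw [mem_sep] at hu hv
    exact (hS.jinj _ (i1_mem hS) _ (hf _ hu.1) _ (i1_mem hS) _ (hf _ hv.1)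
      (hu.2.symm.trans hv.2)).2
  · intro y hy
    rw [mem_img] at hy
    obtain ⟨x, hx, rfl⟩ := hy
    rw [mem_sep] at hx
    exact hfin _ hx.1

theorem Nf_isRec {A D S : M} (τ : M → M) [Ft₁ τ] (hS : Good A D S) :
    IsRec (fst S) (fun _ f => NN τ D S (Old D S f)) (Nf τ D S) := by
  unfold Nf
  obtain ⟨N, hN⟩ := exists_rec hS.wo (fun _ f => NN τ D S (Old D S f))
  exact iota_spec (P := fun N => IsRec (fst S) (fun _ f => NN τ D S (Old D S f)) N)
    ⟨N, hN, fun y hy => IsRec.unique hS.wo _ hy hN⟩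

theorem Nf_isFn {A D S : M} (τ : M → M) [Ft₁ τ] (hS : Good A D S) : IsFn (Nf τ D S) :=
  (Nf_isRec τ hS).1

theorem dom_Nf {A D S : M} (τ : M → M) [Ft₁ τ] (hS : Good A D S) : dom (Nf τ D S) = II S :=
  (Nf_isRec τ hS).2.1

/-- the properties of the sequence of new sets -/
theorem Nf_spec {A D S : M} {τ : M → M} [Ft₁ τ] (h : Hyp A τ) (hD : SeqD A D) (hS : Good A D S)
    {i : M} (hi : i ∈ II S) :
    KFin (app (Nf τ D S) i) ∧ app (Nf τ D S) i ⊆ A ∧ (∃ z, z ∈ app (Nf τ D S) i) ∧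
    (∀ x, x ∈ II S → Disj (app (Nf τ D S) i) x) ∧
    (∀ k, k ∈ pd S i → Disj (app (Nf τ D S) i) (app (Nf τ D S) k)) := by
  obtain ⟨N, hN⟩ : ∃ N, N = Nf τ D S := ⟨_, rfl⟩
  have hrec := Nf_isRec τ hS
  rw [← hN] at hrec ⊢
  obtain ⟨-, hdom, hval⟩ := hrec
  refine WO.induction hS.wo (fun i => KFin (app N i) ∧ app N i ⊆ A ∧ (∃ z, z ∈ app N i) ∧
    (∀ x, x ∈ II S → Disj (app N i) x) ∧ (∀ k, k ∈ pd S i → Disj (app N i) (app N k))) ?_ i hi
  intro x hx ih
  have hxs : app (fst S) x ⊆ II S := hS.wo.sub x hx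
  have hdr : dom (res N (app (fst S) x)) ⊆ II S := by
    intro k hk
    rw [mem_dom_res] at hk
    exact hxs _ hk.2
  have hkd : ∀ k, k ∈ app (fst S) x → k ∈ dom (res N (app (fst S) x)) := by
    intro k hk
    rw [mem_dom_res]
    refine ⟨?_, hk⟩
    rw [hdom]
    exact hxs _ hk
  have hfin : ∀ k, k ∈ dom (res N (app (fst S) x)) →
      KFin (app (res N (app (fst S) x)) k) := by
    intro k hk
    rw [mem_dom_res] at hk
    rw [app_res hk.2]
    exact (ih k hk.2).1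
  obtain ⟨h1, h2, h3, h4⟩ := NN_spec h hD hS (O := Old D S (res N (app (fst S) x)))
    Old_isFn dom_Old (fun a ha => Old_KFin hS hD hdr hfin ha)
  have hv := hval x hx
  simp only at hv
  rw [← hv] at h1 h2 h3 h4
  refine ⟨h3, h2, h1, ?_, ?_⟩
  · intro k hk
    have h5 := h4 _ (hS.jmem _ (i0_mem hS) _ hk)
    rwa [Old_left hS hk hD hdr] at h5
  · intro k hk
    have h5 := h4 _ (hS.jmem _ (i1_mem hS) _ (hxs _ hk))
    rw [Old_right hS hD hdr (hkd k hk)] at h5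
    have h6 : app (res N (app (fst S) x)) k = app N k := app_res hk
    rw [h6] at h5
    exact h5

/-- different members of the sequence are disjoint -/
theorem Nf_disj {A D S : M} {τ : M → M} [Ft₁ τ] (h : Hyp A τ) (hD : SeqD A D) (hS : Good A D S)
    {i k : M} (hi : i ∈ II S) (hk : k ∈ II S) (hik : i ≠ k) :
    Disj (app (Nf τ D S) i) (app (Nf τ D S) k) := by
  rcases hS.wo.tot i hi k hk with h1 | h1 | h1
  · exact ((Nf_spec h hD hS hk).2.2.2.2 i h1).symm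
  · exact absurd h1 hik
  · exact (Nf_spec h hD hS hi).2.2.2.2 k h1

theorem Nf_inj {A D S : M} {τ : M → M} [Ft₁ τ] (h : Hyp A τ) (hD : SeqD A D) (hS : Good A D S)
    {i k : M} (hi : i ∈ II S) (hk : k ∈ II S) (hik : app (Nf τ D S) i = app (Nf τ D S) k) :
    i = k := by
  by_contra hne
  obtain ⟨z, hz⟩ := (Nf_spec h hD hS hi).2.2.1
  exact Nf_disj h hD hS hi hk hne z hz (hik ▸ hz)

theorem Nf_notMem {A D S : M} {τ : M → M} [Ft₁ τ] (h : Hyp A τ) (hD : SeqD A D)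
    (hS : Good A D S) {i : M} (hi : i ∈ II S) : app (Nf τ D S) i ∉ II S := by
  intro hmem
  obtain ⟨-, -, ⟨z, hz⟩, h4, -⟩ := Nf_spec h hD hS hi
  exact h4 _ hmem z hz hz

end Pool.Agent.Lib.MP_1929a6_lc
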