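import Mathlib
import Pool.Agent.Lib.MP_1929a6_lc.Seq

/-!
# The extension of a good system
-/

universe u

namespace Pool.Agent.Lib.MP_1929a6_lc

open Pool.Agent.ZF

variable {M : Type u} [Model M]

theorem pr_mem_sP {D S x y : M} {τ : M → M} [Ft₁ τ] : pr x y ∈ sP τ D S ↔ pr x y ∈ fst S ∨
    ∃ i, i ∈ II S ∧ x = app (Nf τ D S) i ∧
      y = II S ∪ img (fun k => app (Nf τ D S) k) (pd S i) := by
  simp only [sP, mem_un, mem_img, pr_inj]

theorem mem_sP {D S z : M} {τ : M → M} [Ft₁ τ] : z ∈ sP τ D S ↔ z ∈ fst S ∨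
    ∃ i, i ∈ II S ∧ z = pr (app (Nf τ D S) i)
      (II S ∪ img (fun k => app (Nf τ D S) k) (pd S i)) := by
  simp only [sP, mem_un, mem_img]

theorem mem_jP {D S z : M} {τ : M → M} [Ft₁ τ] : z ∈ jP τ D S ↔ z ∈ snd S ∨
    (∃ a b, a ∈ II S ∧ b ∈ II S ∧ z = pr (pr (app (Nf τ D S) a) b)
      (app (Nf τ D S) (jj S (i0 D) (jj S a b)))) ∨
    (∃ a b, a ∈ II S ∧ b ∈ II S ∧ z = pr (pr a (app (Nf τ D S) b))
      (app (Nf τ D S) (jj S (i1 D) (jj S a b)))) ∨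
    (∃ a b, a ∈ II S ∧ b ∈ II S ∧ z = pr (pr (app (Nf τ D S) a) (app (Nf τ D S) b))
      (app (Nf τ D S) (jj S (i2 D) (jj S a b)))) := by
  simp only [jP, mem_un, mem_img, mem_prod]
  constructor
  · rintro (h | ⟨_, ⟨a, ha, b, hb, rfl⟩, rfl⟩ | ⟨_, ⟨a, ha, b, hb, rfl⟩, rfl⟩ |
      ⟨_, ⟨a, ha, b, hb, rfl⟩, rfl⟩)
    · exact Or.inl h
    · exact Or.inr (Or.inl ⟨a, b, ha, hb, by simp⟩)
    · exact Or.inr (Or.inr (Or.inl ⟨a, b, ha, hb, by simp⟩))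
    · exact Or.inr (Or.inr (Or.inr ⟨a, b, ha, hb, by simp⟩))
  · rintro (h | ⟨a, b, ha, hb, rfl⟩ | ⟨a, b, ha, hb, rfl⟩ | ⟨a, b, ha, hb, rfl⟩)
    · exact Or.inl h
    · exact Or.inr (Or.inl ⟨pr a b, ⟨a, ha, b, hb, rfl⟩, by simp⟩)
    · exact Or.inr (Or.inr (Or.inl ⟨pr a b, ⟨a, ha, b, hb, rfl⟩, by simp⟩))
    · exact Or.inr (Or.inr (Or.inr ⟨pr a b, ⟨a, ha, b, hb, rfl⟩, by simp⟩))

theorem leS_extS (τ : M → M) [Ft₁ τ] (D S : M) : leS S (extS τ D S) := by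
  constructor
  · intro z hz
    rw [extS, fst_pr]
    exact mem_sP.2 (Or.inl hz)
  · intro z hz
    rw [extS, snd_pr]
    exact mem_jP.2 (Or.inl hz)

theorem mem_II_ext {D S x : M} {τ : M → M} [Ft₁ τ] :
    x ∈ II (extS τ D S) ↔ x ∈ II S ∨ ∃ i, i ∈ II S ∧ x = app (Nf τ D S) i := by
  unfold II extS
  rw [fst_pr, mem_dom, mem_dom]
  constructor
  · rintro ⟨y, hy⟩
    rcases pr_mem_sP.1 hy with h | ⟨i, hi, hx, -⟩
    · exact Or.inl ⟨y, h⟩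
    · exact Or.inr ⟨i, hi, hx⟩
  · rintro (⟨y, h⟩ | ⟨i, hi, hx⟩)
    · exact ⟨y, pr_mem_sP.2 (Or.inl h)⟩
    · exact ⟨_, pr_mem_sP.2 (Or.inr ⟨i, hi, hx, rfl⟩)⟩

theorem II_extS {A D S : M} {τ : M → M} [Ft₁ τ] (h : Hyp A τ) (hD : SeqD A D) (hS : Good A D S)
    {x : M} : x ∈ II (extS τ D S) ↔ x ∈ II S ∨ ∃ i, i ∈ II S ∧ x = app (Nf τ D S) i :=
  mem_II_ext

section

variable {A D S : M} {τ : M → M} [Ft₁ τ] (h : Hyp A τ) (hD : SeqD A D) (hS : Good A D S)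

include h hD hS

theorem sP_isFn : IsFn (sP τ D S) := by
  constructor
  · intro p hp
    rcases mem_sP.1 hp with hp | ⟨i, _, rfl⟩
    · exact hS.wo.fn.1 p hp
    · exact ⟨_, _, rfl⟩
  · intro x y y' hy hy'
    rcases pr_mem_sP.1 hy with hy | ⟨i, hi, hx, rfl⟩
    · rcases pr_mem_sP.1 hy' with hy' | ⟨k, hk, hx', rfl⟩
      · exact hS.wo.fn.2 x y y' hy hy'
      · exact absurd (show app (Nf τ D S) k ∈ II S by rw [← hx']; exact mem_dom.2 ⟨y, hy⟩)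
          (Nf_notMem h hD hS hk)
    · rcases pr_mem_sP.1 hy' with hy' | ⟨k, hk, hx', rfl⟩
      · exact absurd (show app (Nf τ D S) i ∈ II S by rw [← hx]; exact mem_dom.2 ⟨y', hy'⟩)
          (Nf_notMem h hD hS hi)
      · have : i = k := Nf_inj h hD hS hi hk (hx.symm.trans hx')
        rw [this]

theorem pd_old {x : M} (hx : x ∈ II S) : pd (extS τ D S) x = pd S x := by
  unfold pd extS
  rw [fst_pr]
  exact (sP_isFn h hD hS).app_eq (pr_mem_sP.2 (Or.inl (hS.wo.fn.app_mem hx)))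

theorem pd_new {i : M} (hi : i ∈ II S) : pd (extS τ D S) (app (Nf τ D S) i) =
    II S ∪ img (fun k => app (Nf τ D S) k) (pd S i) := by
  unfold pd extS
  rw [fst_pr]
  exact (sP_isFn h hD hS).app_eq (pr_mem_sP.2 (Or.inr ⟨i, hi, rfl, rfl⟩))

theorem wo_ext : WO (fst (extS τ D S)) := by
  have hII : ∀ x, x ∈ dom (fst (extS τ D S)) ↔
      x ∈ II S ∨ ∃ i, i ∈ II S ∧ x = app (Nf τ D S) i := fun x => mem_II_ext
  have hpd : ∀ i, i ∈ II S → ∀ k, k ∈ pd S i → k ∈ II S := fun i hi k hk => hS.wo.sub i hi k hk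
  refine ⟨?_, ?_, ?_, ?_⟩
  · rw [extS, fst_pr]
    exact sP_isFn h hD hS
  · intro x hx z hz
    rw [hII] at hx ⊢
    rcases hx with hx | ⟨i, hi, rfl⟩
    · have h1 : z ∈ pd (extS τ D S) x := hz
      rw [pd_old h hD hS hx] at h1
      exact Or.inl (hS.wo.sub x hx z h1)
    · have h1 : z ∈ pd (extS τ D S) (app (Nf τ D S) i) := hz
      rw [pd_new h hD hS hi, mem_un, mem_img] at h1
      rcases h1 with h1 | ⟨k, hk, rfl⟩
      · exact Or.inl h1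
      · exact Or.inr ⟨k, hpd i hi k hk, rfl⟩
  · intro X hX hne
    by_cases h1 : ∃ x, x ∈ X ∩ II S
    · obtain ⟨m, hm, hm'⟩ := hS.wo.wf (X ∩ II S) (fun z hz => (mem_int.1 hz).2) h1
      rw [mem_int] at hm
      refine ⟨m, hm.1, fun y hy hy' => ?_⟩
      have h2 : y ∈ pd (extS τ D S) m := hy'
      rw [pd_old h hD hS hm.2] at h2
      exact hm' y (mem_int.2 ⟨hy, hS.wo.sub m hm.2 y h2⟩) h2
    · have h2 : ∀ x, x ∈ X → x ∉ II S := fun x hx hx' => h1 ⟨x, mem_int.2 ⟨hx, hx'⟩⟩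
      obtain ⟨i, hi, hi'⟩ := hS.wo.wf (sep (II S) (fun i => app (Nf τ D S) i ∈ X))
        (fun z hz => (mem_sep.1 hz).1) (by
          obtain ⟨x, hx⟩ := hne
          rcases (hII x).1 (hX x hx) with h3 | ⟨i, hi, rfl⟩
          · exact absurd h3 (h2 x hx)
          · exact ⟨i, mem_sep.2 ⟨hi, hx⟩⟩)
      rw [mem_sep] at hi
      refine ⟨app (Nf τ D S) i, hi.2, fun y hy hy' => ?_⟩
      have h3 : y ∈ pd (extS τ D S) (app (Nf τ D S) i) := hy'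
      rw [pd_new h hD hS hi.1, mem_un, mem_img] at h3
      rcases h3 with h3 | ⟨k, hk, rfl⟩
      · exact h2 y hy h3
      · exact hi' k (mem_sep.2 ⟨hpd i hi.1 k hk, hy⟩) hk
  · have hnew : ∀ x, x ∈ II S → ∀ k, k ∈ II S →
        x ∈ app (fst (extS τ D S)) (app (Nf τ D S) k) := by
      intro x hx k hk
      change x ∈ pd (extS τ D S) (app (Nf τ D S) k)
      rw [pd_new h hD hS hk]
      exact mem_un.2 (Or.inl hx)
    have hnn : ∀ i, i ∈ II S → ∀ k, k ∈ II S → i ∈ app (fst S) k →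
        app (Nf τ D S) i ∈ app (fst (extS τ D S)) (app (Nf τ D S) k) := by
      intro i hi k hk hik
      change app (Nf τ D S) i ∈ pd (extS τ D S) (app (Nf τ D S) k)
      rw [pd_new h hD hS hk]
      exact mem_un.2 (Or.inr (mem_img.2 ⟨i, hik, rfl⟩))
    intro x hx y hy
    rcases (hII x).1 hx with hx | ⟨i, hi, rfl⟩
    · rcases (hII y).1 hy with hy | ⟨k, hk, rfl⟩
      · have h1 := hS.wo.tot x hx y hy
        have e1 : app (fst (extS τ D S)) y = app (fst S) y := pd_old h hD hS hy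
        have e2 : app (fst (extS τ D S)) x = app (fst S) x := pd_old h hD hS hx
        rw [e1, e2]
        exact h1
      · exact Or.inl (hnew x hx k hk)
    · rcases (hII y).1 hy with hy | ⟨k, hk, rfl⟩
      · exact Or.inr (Or.inr (hnew y hy i hi))
      · rcases hS.wo.tot i hi k hk with h1 | h1 | h1
        · exact Or.inl (hnn i hi k hk h1)
        · exact Or.inr (Or.inl (by rw [h1]))
        · exact Or.inr (Or.inr (hnn k hk i hi h1))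

theorem i1_mem_II : i1 D ∈ II S := hS.base _ (succ_mem_om empty_mem_om)

theorem i0_mem_II : i0 D ∈ II S := hS.base _ empty_mem_om

theorem i2_mem_II : i2 D ∈ II S := hS.base _ (succ_mem_om (succ_mem_om empty_mem_om))

theorem jP_isFn : IsFn (jP τ D S) := by
  have hN := fun {i : M} (hi : i ∈ II S) => Nf_notMem (τ := τ) h hD hS hi
  have hI := fun {i k : M} (hi : i ∈ II S) (hk : k ∈ II S) => Nf_inj (τ := τ) h hD hS hi hk
  have hold : ∀ x y : M, pr x y ∈ snd S → ∃ a b, a ∈ II S ∧ b ∈ II S ∧ x = pr a b := by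
    intro x y hxy
    have h1 : x ∈ dom (snd S) := mem_dom.2 ⟨y, hxy⟩
    rw [hS.jdom, mem_prod] at h1
    obtain ⟨a, ha, b, hb, rfl⟩ := h1
    exact ⟨a, b, ha, hb, rfl⟩
  constructor
  · intro p hp
    rcases mem_jP.1 hp with hp | ⟨a, b, _, _, rfl⟩ | ⟨a, b, _, _, rfl⟩ | ⟨a, b, _, _, rfl⟩
    · exact hS.jfn.1 p hp
    · exact ⟨_, _, rfl⟩
    · exact ⟨_, _, rfl⟩
    · exact ⟨_, _, rfl⟩
  · intro x y y' hy hy'
    rcases mem_jP.1 hy with hy | ⟨a, b, ha, hb, hy⟩ | ⟨a, b, ha, hb, hy⟩ | ⟨a, b, ha, hb, hy⟩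
    · rcases mem_jP.1 hy' with hy' | ⟨c, d, hc, hd, hy'⟩ | ⟨c, d, hc, hd, hy'⟩ |
        ⟨c, d, hc, hd, hy'⟩
      · exact hS.jfn.2 x y y' hy hy'
      all_goals
        obtain ⟨a, b, ha, hb, rfl⟩ := hold x y hy
        simp only [pr_inj] at hy'
        obtain ⟨⟨h1, h2⟩, h3⟩ := hy'
      · exact absurd (h1 ▸ ha) (hN hc)
      · exact absurd (h2 ▸ hb) (hN hd)
      · exact absurd (h1 ▸ ha) (hN hc)
    all_goals
      rw [pr_inj] at hy
      obtain ⟨rfl, rfl⟩ := hy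
      rcases mem_jP.1 hy' with hy' | ⟨c, d, hc, hd, hy'⟩ | ⟨c, d, hc, hd, hy'⟩ |
        ⟨c, d, hc, hd, hy'⟩
    · obtain ⟨c, d, hc, hd, h1⟩ := hold _ _ hy'
      rw [pr_inj] at h1
      exact absurd (h1.1 ▸ hc) (hN ha)
    · simp only [pr_inj] at hy'
      obtain ⟨⟨h1, h2⟩, h3⟩ := hy'
      rw [h3, h2, hI ha hc h1]
    · simp only [pr_inj] at hy'
      obtain ⟨⟨h1, h2⟩, h3⟩ := hy'
      exact absurd (h1 ▸ hc) (hN ha)
    · simp only [pr_inj] at hy'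
      obtain ⟨⟨h1, h2⟩, h3⟩ := hy'
      exact absurd (h2 ▸ hb) (hN hd)
    · obtain ⟨c, d, hc, hd, h1⟩ := hold _ _ hy'
      rw [pr_inj] at h1
      exact absurd (h1.2 ▸ hd) (hN hb)
    · simp only [pr_inj] at hy'
      obtain ⟨⟨h1, h2⟩, h3⟩ := hy'
      exact absurd (h1 ▸ ha) (hN hc)
    · simp only [pr_inj] at hy'
      obtain ⟨⟨h1, h2⟩, h3⟩ := hy'
      rw [h3, h1, hI hb hd h2]
    · simp only [pr_inj] at hy'
      obtain ⟨⟨h1, h2⟩, h3⟩ := hy'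
      exact absurd (h1 ▸ ha) (hN hc)
    · obtain ⟨c, d, hc, hd, h1⟩ := hold _ _ hy'
      rw [pr_inj] at h1
      exact absurd (h1.1 ▸ hc) (hN ha)
    · simp only [pr_inj] at hy'
      obtain ⟨⟨h1, h2⟩, h3⟩ := hy'
      exact absurd (h2 ▸ hd) (hN hb)
    · simp only [pr_inj] at hy'
      obtain ⟨⟨h1, h2⟩, h3⟩ := hy'
      exact absurd (h1 ▸ hc) (hN ha)
    · simp only [pr_inj] at hy'
      obtain ⟨⟨h1, h2⟩, h3⟩ := hy'
      rw [h3, hI ha hc h1, hI hb hd h2]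

theorem jj_old {a b : M} (ha : a ∈ II S) (hb : b ∈ II S) :
    jj (extS τ D S) a b = jj S a b := by
  unfold jj extS
  rw [snd_pr]
  refine (jP_isFn h hD hS).app_eq (mem_jP.2 (Or.inl (hS.jfn.app_mem ?_)))
  rw [hS.jdom, pr_mem_prod]
  exact ⟨ha, hb⟩

theorem jj_new1 {a b : M} (ha : a ∈ II S) (hb : b ∈ II S) :
    jj (extS τ D S) (app (Nf τ D S) a) b = app (Nf τ D S) (jj S (i0 D) (jj S a b)) := by
  conv_lhs => rw [jj, extS, snd_pr]
  exact (jP_isFn h hD hS).app_eq (mem_jP.2 (Or.inr (Or.inl ⟨a, b, ha, hb, rfl⟩)))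

theorem jj_new2 {a b : M} (ha : a ∈ II S) (hb : b ∈ II S) :
    jj (extS τ D S) a (app (Nf τ D S) b) = app (Nf τ D S) (jj S (i1 D) (jj S a b)) := by
  conv_lhs => rw [jj, extS, snd_pr]
  exact (jP_isFn h hD hS).app_eq (mem_jP.2 (Or.inr (Or.inr (Or.inl ⟨a, b, ha, hb, rfl⟩))))

theorem jj_new3 {a b : M} (ha : a ∈ II S) (hb : b ∈ II S) :
    jj (extS τ D S) (app (Nf τ D S) a) (app (Nf τ D S) b) =
      app (Nf τ D S) (jj S (i2 D) (jj S a b)) := by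
  conv_lhs => rw [jj, extS, snd_pr]
  exact (jP_isFn h hD hS).app_eq (mem_jP.2 (Or.inr (Or.inr (Or.inr ⟨a, b, ha, hb, rfl⟩))))

theorem dom_jP : dom (jP τ D S) = prod (II (extS τ D S)) (II (extS τ D S)) := by
  refine ext' fun z => ?_
  rw [mem_dom, mem_prod]
  constructor
  · rintro ⟨y, hy⟩
    rcases mem_jP.1 hy with hy | ⟨a, b, ha, hb, hy⟩ | ⟨a, b, ha, hb, hy⟩ | ⟨a, b, ha, hb, hy⟩
    · have h1 : z ∈ dom (snd S) := mem_dom.2 ⟨y, hy⟩
      rw [hS.jdom, mem_prod] at h1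
      obtain ⟨a, ha, b, hb, rfl⟩ := h1
      exact ⟨a, mem_II_ext.2 (Or.inl ha), b, mem_II_ext.2 (Or.inl hb), rfl⟩
    · rw [pr_inj] at hy
      exact ⟨_, mem_II_ext.2 (Or.inr ⟨a, ha, rfl⟩), b, mem_II_ext.2 (Or.inl hb), hy.1⟩
    · rw [pr_inj] at hy
      exact ⟨a, mem_II_ext.2 (Or.inl ha), _, mem_II_ext.2 (Or.inr ⟨b, hb, rfl⟩), hy.1⟩
    · rw [pr_inj] at hy
      exact ⟨_, mem_II_ext.2 (Or.inr ⟨a, ha, rfl⟩), _, mem_II_ext.2 (Or.inr ⟨b, hb, rfl⟩), hy.1⟩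
  · rintro ⟨x, hx, y, hy, rfl⟩
    rcases mem_II_ext.1 hx with hx | ⟨a, ha, rfl⟩
    · rcases mem_II_ext.1 hy with hy | ⟨b, hb, rfl⟩
      · have h1 : pr x y ∈ dom (snd S) := by rw [hS.jdom, pr_mem_prod]; exact ⟨hx, hy⟩
        obtain ⟨z, hz⟩ := mem_dom.1 h1
        exact ⟨z, mem_jP.2 (Or.inl hz)⟩
      · exact ⟨_, mem_jP.2 (Or.inr (Or.inr (Or.inl ⟨x, b, hx, hb, rfl⟩)))⟩
    · rcases mem_II_ext.1 hy with hy | ⟨b, hb, rfl⟩
      · exact ⟨_, mem_jP.2 (Or.inr (Or.inl ⟨a, y, ha, hy, rfl⟩))⟩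
      · exact ⟨_, mem_jP.2 (Or.inr (Or.inr (Or.inr ⟨a, b, ha, hb, rfl⟩)))⟩

/-- the value of the extended pairing at two indices, in normal form -/
theorem jj_cases {x y : M} (hx : x ∈ II (extS τ D S)) (hy : y ∈ II (extS τ D S)) :
    (x ∈ II S ∧ y ∈ II S ∧ jj (extS τ D S) x y = jj S x y) ∨
    ∃ c a b, a ∈ II S ∧ b ∈ II S ∧ c ∈ II S ∧
      jj (extS τ D S) x y = app (Nf τ D S) (jj S c (jj S a b)) ∧
      ((c = i0 D ∧ x = app (Nf τ D S) a ∧ y = b) ∨ (c = i1 D ∧ x = a ∧ y = app (Nf τ D S) b) ∨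
        (c = i2 D ∧ x = app (Nf τ D S) a ∧ y = app (Nf τ D S) b)) := by
  rcases mem_II_ext.1 hx with hx | ⟨a, ha, rfl⟩
  · rcases mem_II_ext.1 hy with hy | ⟨b, hb, rfl⟩
    · exact Or.inl ⟨hx, hy, jj_old h hD hS hx hy⟩
    · exact Or.inr ⟨i1 D, x, b, hx, hb, i1_mem_II h hD hS, jj_new2 h hD hS hx hb,
        Or.inr (Or.inl ⟨rfl, rfl, rfl⟩)⟩
  · rcases mem_II_ext.1 hy with hy | ⟨b, hb, rfl⟩
    · exact Or.inr ⟨i0 D, a, y, ha, hy, i0_mem_II h hD hS, jj_new1 h hD hS ha hy,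
        Or.inl ⟨rfl, rfl, rfl⟩⟩
    · exact Or.inr ⟨i2 D, a, b, ha, hb, i2_mem_II h hD hS, jj_new3 h hD hS ha hb,
        Or.inr (Or.inr ⟨rfl, rfl, rfl⟩)⟩

/-- the extension of a good system is good -/
theorem extS_good : Good A D (extS τ D S) := by
  have hN := fun {i : M} (hi : i ∈ II S) => Nf_notMem (τ := τ) h hD hS hi
  have h01 : i0 D ≠ i1 D := i0_ne_i1 hD
  have h02 : i0 D ≠ i2 D := i0_ne_i2 hD
  have h12 : i1 D ≠ i2 D := by
    intro he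
    have h1 : succ (∅ : M) ∈ (om : M) := succ_mem_om empty_mem_om
    have h2 : succ (succ (∅ : M)) ∈ (om : M) := succ_mem_om h1
    obtain ⟨z, hz⟩ := hD.ne _ h1
    have h3 : succ (∅ : M) ≠ succ (succ (∅ : M)) := by
      intro h4
      have h5 : succ (∅ : M) ∈ succ (succ (∅ : M)) := mem_succ.2 (Or.inl rfl)
      rw [← h4] at h5
      exact notMem_self _ h5
    exact hD.disj _ h1 _ h2 h3 z hz (by
      have : i1 D = i2 D := he
      unfold i1 i2 at this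
      rw [← this]; exact hz)
  refine ⟨?_, wo_ext h hD hS, ?_, ?_, ?_, ?_, ?_, ?_, ?_, ?_, ?_⟩
  · rw [extS, fst_pr, snd_pr]
  · intro x hx
    rcases mem_II_ext.1 hx with hx | ⟨i, hi, rfl⟩
    · exact hS.fin x hx
    · exact (Nf_spec h hD hS hi).1
  · intro x hx
    rcases mem_II_ext.1 hx with hx | ⟨i, hi, rfl⟩
    · exact hS.sub x hx
    · exact (Nf_spec h hD hS hi).2.1
  · intro x hx
    rcases mem_II_ext.1 hx with hx | ⟨i, hi, rfl⟩
    · exact hS.ne x hx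
    · exact (Nf_spec h hD hS hi).2.2.1
  · intro x hx y hy hxy
    rcases mem_II_ext.1 hx with hx | ⟨i, hi, rfl⟩
    · rcases mem_II_ext.1 hy with hy | ⟨k, hk, rfl⟩
      · exact hS.disj x hx y hy hxy
      · exact ((Nf_spec h hD hS hk).2.2.2.1 x hx).symm
    · rcases mem_II_ext.1 hy with hy | ⟨k, hk, rfl⟩
      · exact (Nf_spec h hD hS hi).2.2.2.1 y hy
      · exact Nf_disj h hD hS hi hk (fun e => hxy (by rw [e]))
  · intro n hn
    exact mem_II_ext.2 (Or.inl (hS.base n hn))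
  · rw [extS, snd_pr]
    exact jP_isFn h hD hS
  · conv_lhs => rw [extS, snd_pr]
    exact dom_jP h hD hS
  · intro x hx y hy
    rcases jj_cases h hD hS hx hy with ⟨h1, h2, h3⟩ | ⟨c, a, b, ha, hb, hc, h3, -⟩
    · rw [h3]
      exact mem_II_ext.2 (Or.inl (hS.jmem x h1 y h2))
    · rw [h3]
      exact mem_II_ext.2 (Or.inr ⟨_, hS.jmem c hc _ (hS.jmem a ha b hb), rfl⟩)
  · intro x hx y hy x' hx' y' hy' he
    rcases jj_cases h hD hS hx hy with ⟨h1, h2, h3⟩ | ⟨c, a, b, ha, hb, hc, h3, h4⟩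
    · rcases jj_cases h hD hS hx' hy' with ⟨g1, g2, g3⟩ | ⟨c', a', b', ha', hb', hc', g3, g4⟩
      · rw [h3, g3] at he
        exact hS.jinj x h1 y h2 x' g1 y' g2 he
      · rw [h3, g3] at he
        exact absurd (he ▸ hS.jmem x h1 y h2) (hN (hS.jmem c' hc' _ (hS.jmem a' ha' b' hb')))
    · rcases jj_cases h hD hS hx' hy' with ⟨g1, g2, g3⟩ | ⟨c', a', b', ha', hb', hc', g3, g4⟩
      · rw [h3, g3] at he
        exact absurd (he.symm ▸ hS.jmem x' g1 y' g2) (hN (hS.jmem c hc _ (hS.jmem a ha b hb)))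
      · rw [h3, g3] at he
        have e1 := Nf_inj h hD hS (hS.jmem c hc _ (hS.jmem a ha b hb))
          (hS.jmem c' hc' _ (hS.jmem a' ha' b' hb')) he
        obtain ⟨e2, e3⟩ := hS.jinj c hc _ (hS.jmem a ha b hb) c' hc' _ (hS.jmem a' ha' b' hb') e1
        obtain ⟨e4, e5⟩ := hS.jinj a ha b hb a' ha' b' hb' e3
        subst e4 e5 e2
        rcases h4 with ⟨k1, rfl, rfl⟩ | ⟨k1, rfl, rfl⟩ | ⟨k1, rfl, rfl⟩
        · rcases g4 with ⟨k2, rfl, rfl⟩ | ⟨k2, rfl, rfl⟩ | ⟨k2, rfl, rfl⟩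
          · exact ⟨rfl, rfl⟩
          · exact absurd (k1.symm.trans k2) h01
          · exact absurd (k1.symm.trans k2) h02
        · rcases g4 with ⟨k2, rfl, rfl⟩ | ⟨k2, rfl, rfl⟩ | ⟨k2, rfl, rfl⟩
          · exact absurd (k2.symm.trans k1) h01
          · exact ⟨rfl, rfl⟩
          · exact absurd (k1.symm.trans k2) h12
        · rcases g4 with ⟨k2, rfl, rfl⟩ | ⟨k2, rfl, rfl⟩ | ⟨k2, rfl, rfl⟩
          · exact absurd (k2.symm.trans k1) h02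
          · exact absurd (k2.symm.trans k1) h12
          · exact ⟨rfl, rfl⟩

theorem extS_ne : extS τ D S ≠ S := by
  intro he
  have h1 := i0_mem_II h hD hS
  have h2 : app (Nf τ D S) (i0 D) ∈ II (extS τ D S) := mem_II_ext.2 (Or.inr ⟨_, h1, rfl⟩)
  rw [he] at h2
  exact Nf_notMem h hD hS h1 h2

end

end Pool.Agent.Lib.MP_1929a6_lc
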