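import Mathlib
import Pool.Agent.Lib.MP_1929a6_lc.Base
import Pool.Agent.Lib.MP_1929a6_lc.Ext
import Pool.Agent.Lib.MP_1929a6_lc.ChainU

/-!
# There is no at most two-to-one map from families to three-element sets
-/

universe u

namespace Pool.Agent.Lib.MP_1929a6_lc

open Pool.Agent.ZF

variable {M : Type u} [Model M]

theorem no_hyp {A : M} {τ : M → M} [Ft₁ τ] : ¬ Hyp A τ := by
  intro h
  obtain ⟨D, hD⟩ := exists_seqD h
  obtain ⟨S₀, hS₀⟩ := exists_good hD
  have hmem : ∀ S : M, S ∈ sep (prod (pow (prod (pow A) (pow (pow A))))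
      (pow (prod (prod (pow A) (pow A)) (pow A)))) (fun S => Good A D S) ↔ Good A D S := by
    intro S
    rw [mem_sep]
    exact ⟨fun h => h.2, fun h => ⟨good_mem h, h⟩⟩
  refine bourbaki_witt (sep (prod (pow (prod (pow A) (pow (pow A))))
      (pow (prod (prod (pow A) (pow A)) (pow A)))) (fun S => Good A D S))
      leS supS (extS τ D) ?_ ?_ ?_ ?_ ?_ ?_ ?_ ?_ ?_ S₀ ((hmem _).2 hS₀)
  · intro x _
    exact ⟨sub_refl' _, sub_refl' _⟩
  · intro x _ y _ z _ h1 h2
    exact ⟨sub_trans' h1.1 h2.1, sub_trans' h1.2 h2.2⟩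
  · intro x hx y hy h1 h2
    rw [hmem] at hx hy
    rw [hx.pair, hy.pair, sub_antisymm h1.1 h2.1, sub_antisymm h1.2 h2.2]
  · intro C hC hne hch
    rw [hmem]
    exact supS_good (fun S hS => (hmem S).1 (hC S hS)) hne hch
  · intro C _ _ _ x hx
    constructor
    · intro z hz
      simp only [supS, fst_pr, mem_sUn, mem_img]
      exact ⟨_, ⟨x, hx, rfl⟩, hz⟩
    · intro z hz
      simp only [supS, snd_pr, mem_sUn, mem_img]
      exact ⟨_, ⟨x, hx, rfl⟩, hz⟩
  · intro C _ _ _ y _ hu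
    constructor
    · intro z hz
      simp only [supS, fst_pr, mem_sUn, mem_img] at hz
      obtain ⟨_, ⟨x, hx, rfl⟩, hz⟩ := hz
      exact (hu x hx).1 z hz
    · intro z hz
      simp only [supS, snd_pr, mem_sUn, mem_img] at hz
      obtain ⟨_, ⟨x, hx, rfl⟩, hz⟩ := hz
      exact (hu x hx).2 z hz
  · intro S hS
    rw [hmem] at hS ⊢
    exact extS_good h hD hS
  · intro S _
    exact leS_extS τ D S
  · intro S hS
    rw [hmem] at hS
    exact extS_ne h hD hS

end Pool.Agent.Lib.MP_1929a6_lc
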