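import Mathlib
import Pool.Agent.ZF.Axioms

/-!
# Definitions for the statement: finite sets, finitary partitions and 3-cycles in a model of `ZF`

All notions are written out in terms of the membership relation `E` of the model.
-/

universe u

namespace Pool.Agent.Lib.MP_1929a6_lc

variable {M : Type u} (E : M → M → Prop)

/-- `p` is the (Kuratowski) ordered pair `(x, y) = {{x}, {x, y}}`. -/
def IsPair (p x y : M) : Prop :=
  ∀ z, E z p ↔ (∀ w, E w z ↔ w = x) ∨ (∀ w, E w z ↔ w = x ∨ w = y)

/-- The ordered pair `(x, y)` is an element of `f`. -/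
def Maps (f x y : M) : Prop := ∃ p, IsPair E p x y ∧ E p f

/-- `f` is a function from `a` to `b` (a set of ordered pairs). -/
def IsFunction (f a b : M) : Prop :=
  (∀ p, E p f → ∃ x y, E x a ∧ E y b ∧ IsPair E p x y) ∧ ∀ x, E x a → ∃! y, Maps E f x y

/-- `f` is an injection from `a` to `b`. -/
def IsInjection (f a b : M) : Prop :=
  IsFunction E f a b ∧ ∀ x x' y, Maps E f x y → Maps E f x' y → x = x'

/-- `f` is a bijection from `a` to `b`. -/
def IsBijection (f a b : M) : Prop :=
  IsInjection E f a b ∧ ∀ y, E y b → ∃ x, Maps E f x y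

/-- `n` is a natural number: it belongs to every set that contains the empty set and that is
closed under the successor `m ↦ m ∪ {m}`. -/
def IsNatural (n : M) : Prop :=
  ∀ X, (∀ e, (∀ z, ¬ E z e) → E e X) →
    (∀ m s, E m X → (∀ z, E z s ↔ E z m ∨ z = m) → E s X) → E n X

/-- `x` is finite: some natural number is in bijection with `x`. -/
def IsFinite (x : M) : Prop := ∃ n f, IsNatural E n ∧ IsBijection E f n x

/-- `P` is a finitary partition of `A`: its elements (the blocks) are nonempty finite subsets of
`A`, and every element of `A` is in exactly one block. -/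
def IsFinitaryPartition (A P : M) : Prop :=
  (∀ x, E x P → (∃ z, E z x) ∧ (∀ z, E z x → E z A) ∧ IsFinite E x) ∧
  ∀ a, E a A → ∃! x, E x P ∧ E a x

/-- `σ` is a permutation of `A` with exactly three non-fixed points. -/
def IsThreeCycle (A σ : M) : Prop :=
  IsBijection E σ A A ∧
  ∃ a b c, a ≠ b ∧ a ≠ c ∧ b ≠ c ∧ ∀ x, (E x A ∧ ¬ Maps E σ x x) ↔ x = a ∨ x = b ∨ x = c

end Pool.Agent.Lib.MP_1929a6_lc
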