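import Mathlib
import Pool.Agent.Lib.MP_1929a6_lc.Statement
import Pool.Agent.Lib.MP_1929a6_lc.Final

/-!
# From the statement to the internal notions
-/

universe u

namespace Pool.Agent.Lib.MP_1929a6_lc

open Pool.Agent.ZF

variable {M : Type u} [Model M]

theorem isPair_iff {p x y : M} : IsPair (Model.E (M := M)) p x y ↔ p = pr x y := by
  have h1 : ∀ z : M, (∀ w, Model.E w z ↔ w = x) ↔ z = {x} := by
    intro z
    constructor
    · intro h; exact ext' fun w => (h w).trans mem_sing.symm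
    · rintro rfl w; exact mem_sing
  have h2 : ∀ z : M, (∀ w, Model.E w z ↔ w = x ∨ w = y) ↔ z = {x, y} := by
    intro z
    constructor
    · intro h
      refine ext' fun w => (h w).trans ?_
      simp
    · rintro rfl w
      change w ∈ ({x, y} : M) ↔ _
      simp
  unfold IsPair
  simp only [h1, h2]
  constructor
  · intro h
    refine ext' fun z => (h z).trans ?_
    simp [pr]
  · rintro rfl z
    change z ∈ pr x y ↔ _
    simp [pr]

theorem maps_iff {f x y : M} : Maps (Model.E (M := M)) f x y ↔ pr x y ∈ f := by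
  unfold Maps
  simp only [isPair_iff]
  constructor
  · rintro ⟨_, rfl, h⟩; exact h
  · intro h; exact ⟨_, rfl, h⟩

theorem isFunction_iff {f a b : M} : IsFunction (Model.E (M := M)) f a b ↔
    IsFn f ∧ dom f = a ∧ ∀ x, x ∈ a → app f x ∈ b := by
  unfold IsFunction
  simp only [isPair_iff, maps_iff]
  constructor
  · rintro ⟨h1, h2⟩
    have hfn : IsFn f := by
      refine ⟨fun p hp => ?_, fun x y y' hy hy' => ?_⟩
      · obtain ⟨x, y, _, _, h⟩ := h1 p hp
        exact ⟨x, y, h⟩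
      · obtain ⟨x', y'', hx, _, h⟩ := h1 _ hy
        obtain ⟨rfl, rfl⟩ := pr_inj.1 h
        exact (h2 x hx).unique hy hy'
    refine ⟨hfn, ext' fun x => ?_, fun x hx => ?_⟩
    · rw [mem_dom]
      constructor
      · rintro ⟨y, hy⟩
        obtain ⟨x', y'', hx, _, h⟩ := h1 _ hy
        obtain ⟨rfl, rfl⟩ := pr_inj.1 h
        exact hx
      · intro hx
        exact (h2 x hx).exists
    · obtain ⟨y, hy⟩ := (h2 x hx).exists
      rw [hfn.app_eq hy]
      obtain ⟨x', y'', _, hy'', h⟩ := h1 _ hy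
      obtain ⟨rfl, rfl⟩ := pr_inj.1 h
      exact hy''
  · rintro ⟨h1, rfl, h3⟩
    constructor
    · intro p hp
      obtain ⟨x, y, rfl⟩ := h1.1 p hp
      have hx : x ∈ dom f := mem_dom.2 ⟨y, hp⟩
      refine ⟨x, y, hx, ?_, rfl⟩
      have := h3 x hx
      rw [h1.app_eq hp] at this
      exact this
    · intro x hx
      refine ⟨app f x, h1.app_mem hx, fun y hy => (h1.app_eq hy).symm⟩

theorem isInjection_iff {f a b : M} : IsInjection (Model.E (M := M)) f a b ↔
    IsFn f ∧ dom f = a ∧ (∀ x, x ∈ a → app f x ∈ b) ∧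
    (∀ x, x ∈ a → ∀ x', x' ∈ a → app f x = app f x' → x = x') := by
  unfold IsInjection
  rw [isFunction_iff]
  simp only [maps_iff]
  constructor
  · rintro ⟨⟨h1, rfl, h3⟩, h4⟩
    refine ⟨h1, rfl, h3, fun x hx x' hx' h => ?_⟩
    exact h4 x x' (app f x) (h1.app_mem hx) (by rw [h]; exact h1.app_mem hx')
  · rintro ⟨h1, rfl, h3, h4⟩
    refine ⟨⟨h1, rfl, h3⟩, fun x x' y hy hy' => ?_⟩
    refine h4 x (mem_dom.2 ⟨y, hy⟩) x' (mem_dom.2 ⟨y, hy'⟩) ?_
    rw [h1.app_eq hy, h1.app_eq hy']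

theorem isBijection_iff {f a b : M} : IsBijection (Model.E (M := M)) f a b ↔
    IsFn f ∧ dom f = a ∧ ran f = b ∧
    (∀ x, x ∈ a → ∀ x', x' ∈ a → app f x = app f x' → x = x') := by
  unfold IsBijection
  rw [isInjection_iff]
  simp only [maps_iff]
  constructor
  · rintro ⟨⟨h1, rfl, h3, h4⟩, h5⟩
    refine ⟨h1, rfl, ext' fun y => ?_, h4⟩
    rw [mem_ran]
    constructor
    · rintro ⟨x, hx⟩
      have := h3 x (mem_dom.2 ⟨y, hx⟩)
      rw [h1.app_eq hx] at this
      exact this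
    · intro hy
      exact h5 y hy
  · rintro ⟨h1, rfl, rfl, h4⟩
    refine ⟨⟨h1, rfl, fun x hx => mem_ran.2 ⟨x, h1.app_mem hx⟩, h4⟩, fun y hy => mem_ran.1 hy⟩

theorem isNatural_iff {n : M} : IsNatural (Model.E (M := M)) n ↔ n ∈ (om : M) := by
  rw [mem_om]
  unfold IsNatural IsNat
  have h1 : ∀ e : M, (∀ z, ¬ Model.E z e) ↔ e = ∅ := fun e => eq_empty_iff.symm
  have h2 : ∀ m s : M, (∀ z, Model.E z s ↔ Model.E z m ∨ z = m) ↔ s = succ m := by
    intro m s
    constructor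
    · intro h
      refine ext' fun z => (h z).trans ?_
      rw [mem_succ]
      exact or_comm
    · rintro rfl z
      exact mem_succ.trans or_comm
  simp only [h1, h2]
  constructor
  · intro h X hX
    refine h X ?_ ?_
    · rintro _ rfl; exact hX.1
    · rintro m _ hm rfl; exact hX.2 m hm
  · intro h X hX hX'
    exact h X ⟨hX _ rfl, fun m hm => hX' m _ hm rfl⟩

theorem isFinite_iff {x : M} : IsFinite (Model.E (M := M)) x ↔ KFin x := by
  rw [KFin_iff]
  unfold IsFinite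
  simp only [isNatural_iff, isBijection_iff]

/-! ### Partitions -/

/-- the partition of `A` whose blocks are the members of `F` and singletons -/
noncomputable def PF (A F : M) : M := F ∪ img (fun a => {a}) (A \ sUn F)

instance : Ft₂ (PF : M → M → M) := by unfold PF; infer_instance

theorem PF_partition {A F : M} (hF : F ∈ Fam A) :
    IsFinitaryPartition (Model.E (M := M)) A (PF A F) := by
  simp only [Fam, mem_sep, mem_pow] at hF
  obtain ⟨hF1, hF2, hF3⟩ := hF
  constructor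
  · intro x hx
    rw [isFinite_iff]
    have hx' : x ∈ PF A F := hx
    simp only [PF, mem_un, mem_img, mem_dif] at hx'
    rcases hx' with hx' | ⟨a, ⟨ha, _⟩, rfl⟩
    · obtain ⟨h1, u, v, hu, _⟩ := hF2 x hx'
      refine ⟨⟨u, hu⟩, fun z hz => ?_, h1⟩
      exact (mem_pow.1 (hF1 x hx')) z hz
    · refine ⟨⟨a, mem_sing.2 rfl⟩, fun z hz => ?_, KFin.sing a⟩
      rw [mem_sing.1 hz]; exact ha
  · intro a ha
    by_cases h : a ∈ sUn F
    · obtain ⟨x, hx, hax⟩ := mem_sUn.1 h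
      refine ⟨x, ⟨?_, hax⟩, ?_⟩
      · change x ∈ PF A F
        simp [PF, hx]
      · rintro y ⟨hy, hay⟩
        have hy' : y ∈ PF A F := hy
        have hay' : a ∈ y := hay
        simp only [PF, mem_un, mem_img, mem_dif] at hy'
        rcases hy' with hy' | ⟨b, ⟨_, hb⟩, rfl⟩
        · by_contra hne
          exact hF3 y hy' x hx hne a hay' hax
        · rw [mem_sing] at hay'
          rw [hay'] at h
          exact absurd h hb
    · refine ⟨{a}, ⟨?_, mem_sing.2 rfl⟩, ?_⟩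
      · change ({a} : M) ∈ PF A F
        simp only [PF, mem_un, mem_img, mem_dif]
        exact Or.inr ⟨a, ⟨ha, h⟩, rfl⟩
      · rintro y ⟨hy, hay⟩
        have hy' : y ∈ PF A F := hy
        have hay' : a ∈ y := hay
        simp only [PF, mem_un, mem_img, mem_dif] at hy'
        rcases hy' with hy' | ⟨b, ⟨_, hb⟩, rfl⟩
        · exact absurd (mem_sUn.2 ⟨y, hy', hay'⟩) h
        · rw [mem_sing] at hay'
          rw [hay']

theorem PF_inj {A F G : M} (hF : F ∈ Fam A) (hG : G ∈ Fam A) (h : PF A F = PF A G) : F = G := by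
  have key : ∀ F : M, F ∈ Fam A → ∀ x, x ∈ F ↔ x ∈ PF A F ∧ ∃ u v, u ∈ x ∧ v ∈ x ∧ u ≠ v := by
    intro F hF x
    simp only [Fam, mem_sep, mem_pow] at hF
    obtain ⟨hF1, hF2, hF3⟩ := hF
    constructor
    · intro hx
      exact ⟨by simp [PF, hx], (hF2 x hx).2⟩
    · rintro ⟨hx, u, v, hu, hv, huv⟩
      simp only [PF, mem_un, mem_img, mem_dif] at hx
      rcases hx with hx | ⟨a, _, rfl⟩
      · exact hx
      · rw [mem_sing] at hu hv
        exact absurd (hu.trans hv.symm) huv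
  refine ext' fun x => ?_
  rw [key F hF x, key G hG x, h]

/-! ### 3-cycles -/

/-- the set of points of `A` moved by `σ` -/
noncomputable def supp (A σ : M) : M := sep A (fun a => pr a a ∉ σ)

instance : Ft₂ (supp : M → M → M) := by unfold supp; infer_instance

theorem isThreeCycle_iff {A σ : M} : IsThreeCycle (Model.E (M := M)) A σ ↔
    (IsFn σ ∧ dom σ = A ∧ ran σ = A ∧
      (∀ x, x ∈ A → ∀ x', x' ∈ A → app σ x = app σ x' → x = x')) ∧
    ∃ a b c, a ≠ b ∧ a ≠ c ∧ b ≠ c ∧ supp A σ = {a, b, c} := by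
  unfold IsThreeCycle
  rw [isBijection_iff]
  simp only [maps_iff]
  refine and_congr Iff.rfl ?_
  refine exists_congr fun a => exists_congr fun b => exists_congr fun c => ?_
  refine and_congr Iff.rfl (and_congr Iff.rfl (and_congr Iff.rfl ?_))
  constructor
  · intro h
    refine ext' fun x => ?_
    simp only [supp, mem_sep, mem_ins, mem_sing]
    exact h x
  · intro h x
    have : x ∈ supp A σ ↔ x ∈ ({a, b, c} : M) := by rw [h]
    change (x ∈ A ∧ pr x x ∉ σ) ↔ _
    simpa [supp] using this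

/-- the two possible shapes of a 3-cycle -/
theorem cycle_shape {A σ a b c : M} (h1 : IsFn σ) (h2 : dom σ = A) (h3 : ran σ = A)
    (h4 : ∀ x, x ∈ A → ∀ x', x' ∈ A → app σ x = app σ x' → x = x')
    (hab : a ≠ b) (hac : a ≠ c) (hbc : b ≠ c) (hs : supp A σ = {a, b, c}) :
    (app σ a = b ∧ app σ b = c ∧ app σ c = a) ∨ (app σ a = c ∧ app σ b = a ∧ app σ c = b) := by
  have hmem : ∀ x, (x ∈ A ∧ pr x x ∉ σ) ↔ x = a ∨ x = b ∨ x = c := by
    intro x
    have : x ∈ supp A σ ↔ x ∈ ({a, b, c} : M) := by rw [hs]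
    simpa [supp] using this
  have hmv : ∀ x, x ∈ A → (app σ x ≠ x ↔ x = a ∨ x = b ∨ x = c) := by
    intro x hx
    rw [← hmem x, h1.pr_mem_iff, h2]
    simp [hx]
  have hA : ∀ x, (x = a ∨ x = b ∨ x = c) → x ∈ A := fun x hx => ((hmem x).2 hx).1
  have haA := hA a (by simp)
  have hbA := hA b (by simp)
  have hcA := hA c (by simp)
  have hval : ∀ x, x ∈ A → app σ x ∈ A := by
    intro x hx
    rw [← h2] at hx
    rw [← h3]
    exact mem_ran.2 ⟨x, h1.app_mem hx⟩
  have hcl : ∀ x, (x = a ∨ x = b ∨ x = c) → (app σ x = a ∨ app σ x = b ∨ app σ x = c) := by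
    intro x hx
    have hxA := hA x hx
    rw [← hmv _ (hval x hxA)]
    intro h
    exact (hmv x hxA).2 hx (h4 _ (hval x hxA) _ hxA h)
  have ha := hcl a (by simp)
  have hb := hcl b (by simp)
  have hc := hcl c (by simp)
  have ha' := (hmv a haA).2 (by simp)
  have hb' := (hmv b hbA).2 (by simp)
  have hc' := (hmv c hcA).2 (by simp)
  have iab : app σ a ≠ app σ b := fun h => hab (h4 _ haA _ hbA h)
  have iac : app σ a ≠ app σ c := fun h => hac (h4 _ haA _ hcA h)
  have ibc : app σ b ≠ app σ c := fun h => hbc (h4 _ hbA _ hcA h)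
  rcases ha with ha | ha | ha <;> rcases hb with hb | hb | hb <;> rcases hc with hc | hc | hc <;>
    simp_all

theorem cycle_ext {A σ ρ a b c : M} (h1 : IsFn σ) (h2 : dom σ = A) (h1' : IsFn ρ)
    (h2' : dom ρ = A) (hs : supp A σ = {a, b, c}) (hs' : supp A ρ = {a, b, c})
    (ha : app σ a = app ρ a) (hb : app σ b = app ρ b) (hc : app σ c = app ρ c) : σ = ρ := by
  refine h1.ext h1' (h2.trans h2'.symm) fun x hx => ?_
  by_cases h : x = a ∨ x = b ∨ x = c
  · rcases h with rfl | rfl | rfl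
    · exact ha
    · exact hb
    · exact hc
  · have hxA : x ∈ A := h2 ▸ hx
    have k1 : pr x x ∈ σ := by
      by_contra h5
      have : x ∈ supp A σ := by simp [supp, hxA, h5]
      rw [hs] at this
      exact h (by simpa using this)
    have k2 : pr x x ∈ ρ := by
      by_contra h5
      have : x ∈ supp A ρ := by simp [supp, hxA, h5]
      rw [hs'] at this
      exact h (by simpa using this)
    rw [h1.app_eq k1, h1'.app_eq k2]

/-- the set of finitary partitions exists -/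
theorem exists_partitions (A : M) :
    ∃ B : M, ∀ P, P ∈ B ↔ IsFinitaryPartition (Model.E (M := M)) A P := by
  have key : ∀ P : M, IsFinitaryPartition (Model.E (M := M)) A P ↔
      ((∀ x, x ∈ P → (∃ z, z ∈ x) ∧ (∀ z, z ∈ x → z ∈ A) ∧ KFin x) ∧
      ∀ a, a ∈ A → ∃ x, (x ∈ P ∧ a ∈ x) ∧ ∀ y, (y ∈ P ∧ a ∈ y) → y = x) := by
    intro P
    unfold IsFinitaryPartition
    simp only [isFinite_iff]
    rfl
  refine ⟨sep (pow (pow A)) (fun P =>
      ((∀ x, x ∈ P → (∃ z, z ∈ x) ∧ (∀ z, z ∈ x → z ∈ A) ∧ KFin x) ∧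
      ∀ a, a ∈ A → ∃ x, (x ∈ P ∧ a ∈ x) ∧ ∀ y, (y ∈ P ∧ a ∈ y) → y = x)), fun P => ?_⟩
  rw [mem_sep, key P]
  constructor
  · exact fun h => h.2
  · intro h
    refine ⟨mem_pow.2 fun x hx => mem_pow.2 fun z hz => (h.1 x hx).2.1 z hz, h⟩

/-- the set of 3-cycles exists -/
theorem exists_cycles (A : M) :
    ∃ S : M, ∀ σ, σ ∈ S ↔ IsThreeCycle (Model.E (M := M)) A σ := by
  refine ⟨sep (pow (prod A A)) (fun σ => (IsFn σ ∧ dom σ = A ∧ ran σ = A ∧
      (∀ x, x ∈ A → ∀ x', x' ∈ A → app σ x = app σ x' → x = x')) ∧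
    ∃ a b c, a ≠ b ∧ a ≠ c ∧ b ≠ c ∧ supp A σ = {a, b, c}), fun σ => ?_⟩
  rw [mem_sep, isThreeCycle_iff]
  constructor
  · exact fun h => h.2
  · intro h
    refine ⟨mem_pow.2 fun p hp => ?_, h⟩
    obtain ⟨x, y, rfl⟩ := h.1.1.1 p hp
    rw [pr_mem_prod]
    exact ⟨by rw [← h.1.2.1]; exact mem_dom.2 ⟨y, hp⟩,
      by rw [← h.1.2.2.1]; exact mem_ran.2 ⟨x, hp⟩⟩

/-- **Main theorem**, internal form. -/
theorem no_injection {A B S : M} (hA : ¬ KFin A)
    (hB : ∀ P, P ∈ B ↔ IsFinitaryPartition (Model.E (M := M)) A P)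
    (hS : ∀ σ, σ ∈ S ↔ IsThreeCycle (Model.E (M := M)) A σ) :
    ¬ ∃ f, IsInjection (Model.E (M := M)) f B S := by
  rintro ⟨f, hf⟩
  rw [isInjection_iff] at hf
  obtain ⟨f1, f2, f3, f4⟩ := hf
  have hcyc : ∀ F, F ∈ Fam A → (IsFn (app f (PF A F)) ∧ dom (app f (PF A F)) = A ∧
      ran (app f (PF A F)) = A ∧ (∀ x, x ∈ A → ∀ x', x' ∈ A →
        app (app f (PF A F)) x = app (app f (PF A F)) x' → x = x')) ∧
      ∃ a b c, a ≠ b ∧ a ≠ c ∧ b ≠ c ∧ supp A (app f (PF A F)) = {a, b, c} := by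
    intro F hF
    rw [← isThreeCycle_iff, ← hS]
    exact f3 _ ((hB _).2 (PF_partition hF))
  have hinj : ∀ F, F ∈ Fam A → ∀ G, G ∈ Fam A → app f (PF A F) = app f (PF A G) → F = G := by
    intro F hF G hG h
    exact PF_inj hF hG (f4 _ ((hB _).2 (PF_partition hF)) _ ((hB _).2 (PF_partition hG)) h)
  refine no_hyp (A := A) (τ := fun F => supp A (app f (PF A F))) ⟨hA, ?_, ?_⟩
  · intro F hF
    obtain ⟨_, a, b, c, hab, hac, hbc, hs⟩ := hcyc F hF
    have hA' : ∀ x, (x = a ∨ x = b ∨ x = c) → x ∈ A := by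
      intro x hx
      have : x ∈ supp A (app f (PF A F)) := by rw [hs]; simpa using hx
      simp only [supp, mem_sep] at this
      exact this.1
    exact ⟨a, b, c, hA' a (by simp), hA' b (by simp), hA' c (by simp), hab, hbc, hac, hs⟩
  · intro F hF G hG H hH h1 h2
    beta_reduce at h1 h2
    obtain ⟨⟨k1, k2, k3, k4⟩, a, b, c, hab, hac, hbc, hs⟩ := hcyc F hF
    obtain ⟨⟨l1, l2, l3, l4⟩, -⟩ := hcyc G hG
    obtain ⟨⟨m1, m2, m3, m4⟩, -⟩ := hcyc H hH
    have hs' : supp A (app f (PF A G)) = {a, b, c} := h1 ▸ hs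
    have hs'' : supp A (app f (PF A H)) = {a, b, c} := h2 ▸ hs'
    have c1 := cycle_shape k1 k2 k3 k4 hab hac hbc hs
    have c2 := cycle_shape l1 l2 l3 l4 hab hac hbc hs'
    have c3 := cycle_shape m1 m2 m3 m4 hab hac hbc hs''
    rcases c1 with ⟨a1, a2, a3⟩ | ⟨a1, a2, a3⟩ <;> rcases c2 with ⟨b1, b2, b3⟩ | ⟨b1, b2, b3⟩ <;>
      rcases c3 with ⟨d1, d2, d3⟩ | ⟨d1, d2, d3⟩
    all_goals first
      | exact Or.inl (hinj F hF G hG (cycle_ext k1 k2 l1 l2 hs hs' (a1.trans b1.symm)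
          (a2.trans b2.symm) (a3.trans b3.symm)))
      | exact Or.inr (Or.inl (hinj G hG H hH (cycle_ext l1 l2 m1 m2 hs' hs'' (b1.trans d1.symm)
          (b2.trans d2.symm) (b3.trans d3.symm))))
      | exact Or.inr (Or.inr (hinj F hF H hH (cycle_ext k1 k2 m1 m2 hs hs'' (a1.trans d1.symm)
          (a2.trans d2.symm) (a3.trans d3.symm))))

end Pool.Agent.Lib.MP_1929a6_lc
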